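import Pool.Agent.V11143.Deg6

/-!
# A positive fraction of the 5-uniform hypergraphs is irregular
-/

set_option autoImplicit false

namespace Pool.Agent.V11143.Deg

open Finset

variable {n : ℕ}

lemma iterate {k : ℕ} (hk : 1 ≤ k) (hn : 4 ≤ n) (hM : 1 ≤ (n - 2).choose (k - 1)) {x y : ℝ}
    (hx : x = 2 / Real.sqrt ((n - 2).choose (k - 1) : ℝ)) (hx1 : x ≤ 1)
    (hy : y = x * (4 * n * p2 ((n - 2).choose (k - 1))) + 4 / ((n - 2).choose (k - 1) : ℝ))
    (S : Finset (Fin n × Fin n)) (hS : S ⊆ (univ : Finset (Fin n)).offDiag) :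
    ((1 - x) ^ S.card - S.card * y) * 2 ^ (n.choose k) ≤ al k S := by
  have hx0 : 0 ≤ x := by
    rw [hx]
    positivity
  have hy0 : 0 ≤ y := by
    rw [hy]
    have := (p2_pos ((n - 2).choose (k - 1))).le
    positivity
  induction S using Finset.induction_on with
  | empty =>
    unfold al
    have h1 : (full n k).powerset.filter (good (∅ : Finset (Fin n × Fin n))) =
        (full n k).powerset := by
      rw [filter_true_of_mem]
      intro H _ ρ hρ
      simp at hρ
    rw [h1, card_powerset, card_full]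
    simp
  | insert π S hπ ih =>
    have hS' : S ⊆ (univ : Finset (Fin n)).offDiag := fun a ha => hS (mem_insert_of_mem ha)
    have h1 := ih hS'
    have h2 := step (n := n) hk hn hM hS' (hS (mem_insert_self π S))
    rw [← hx, ← hy] at h2
    rw [card_insert_of_notMem hπ]
    push_cast
    have h3 := mul_le_mul_of_nonneg_left h1 (sub_nonneg.mpr hx1)
    have h4 : (0 : ℝ) < 2 ^ (n.choose k) := by positivity
    have h5 : 0 ≤ x * (S.card * y) * 2 ^ (n.choose k) := by positivity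
    have h6 : ((1 - x) ^ (S.card + 1) - ((S.card : ℝ) + 1) * y) * 2 ^ (n.choose k) =
        (1 - x) * (((1 - x) ^ S.card - S.card * y) * 2 ^ (n.choose k)) -
        x * (S.card * y) * 2 ^ (n.choose k) - y * 2 ^ (n.choose k) := by ring
    rw [h6]
    linarith

lemma choose_four (s : ℕ) : 24 * (s + 4).choose 4 = (s + 4) * (s + 3) * (s + 2) * (s + 1) := by
  have h := Nat.descFactorial_eq_factorial_mul_choose (s + 4) 4
  have h2 : (s + 4).descFactorial 4 = (s + 4) * (s + 3) * (s + 2) * (s + 1) := by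
    simp only [Nat.descFactorial_succ, Nat.descFactorial_zero]
    have e0 : s + 4 - 0 = s + 4 := rfl
    have e1 : s + 4 - 1 = s + 3 := rfl
    have e2 : s + 4 - 2 = s + 2 := rfl
    have e3 : s + 4 - 3 = s + 1 := rfl
    rw [e0, e1, e2, e3]
    ring
  rw [h2] at h
  have h3 : Nat.factorial 4 = 24 := by decide
  rw [h3] at h
  exact h.symm

lemma exp_bound {x : ℝ} (hx0 : 0 ≤ x) (hx : x ≤ 1 / 2) : Real.exp (-(2 * x)) ≤ 1 - x := by
  rw [Real.exp_neg, inv_le_comm₀ (Real.exp_pos _) (by linarith)]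
  have h1 := Real.add_one_le_exp (2 * x)
  refine le_trans ?_ h1
  rw [inv_eq_one_div, div_le_iff₀ (by linarith)]
  nlinarith

lemma five (hn : 10 ≤ n) : (Real.exp (-80) - 4800 / n) * 2 ^ (n.choose 5) ≤
    al 5 ((univ : Finset (Fin n)).offDiag) := by
  have hnr : (10 : ℝ) ≤ n := by exact_mod_cast hn
  have hn0 : (0 : ℝ) < n := by linarith
  set M := (n - 2).choose (5 - 1) with hMdef
  have hM24 : (n : ℝ) ^ 4 ≤ 400 * M := by
    obtain ⟨s, rfl⟩ : ∃ s, n = s + 6 := ⟨n - 6, by omega⟩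
    have h1 := choose_four s
    have e1 : s + 6 - 2 = s + 4 := by omega
    rw [e1] at hMdef
    simp only [show 5 - 1 = 4 from rfl] at hMdef
    rw [← hMdef] at h1
    have h2 : (24 : ℝ) * M = ((s : ℝ) + 4) * (s + 3) * (s + 2) * (s + 1) := by exact_mod_cast h1
    have hs : (4 : ℝ) ≤ s := by
      have : 4 ≤ s := by omega
      exact_mod_cast this
    push_cast
    have h3 : 400 * (M : ℝ) = 400 / 24 * (((s : ℝ) + 4) * (s + 3) * (s + 2) * (s + 1)) := by
      rw [← h2]
      ring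
    rw [h3]
    obtain ⟨r, hr, hrs⟩ : ∃ r : ℝ, 0 ≤ r ∧ (s : ℝ) = r + 4 := ⟨s - 4, by linarith, by ring⟩
    rw [hrs]
    have hr2 : 0 ≤ r ^ 2 := by positivity
    have hr3 : 0 ≤ r ^ 3 := by positivity
    have hr4 : 0 ≤ r ^ 4 := by positivity
    nlinarith
  have hM0 : (0 : ℝ) < M := by
    have : 0 < (n : ℝ) ^ 4 := by positivity
    linarith
  have hM1 : 1 ≤ M := by
    have : 0 < M := by exact_mod_cast hM0
    omega
  have hsq : (n : ℝ) ^ 2 / 20 ≤ Real.sqrt M := by
    apply Real.le_sqrt_of_sq_le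
    have : ((n : ℝ) ^ 2 / 20) ^ 2 = (n : ℝ) ^ 4 / 400 := by ring
    rw [this]
    linarith
  have hsqpos : 0 < Real.sqrt (M : ℝ) := Real.sqrt_pos.mpr hM0
  set x := 2 / Real.sqrt (M : ℝ) with hx
  have hx0 : 0 ≤ x := by positivity
  have hx40 : x ≤ 40 / (n : ℝ) ^ 2 := by
    rw [hx, div_le_div_iff₀ hsqpos (by positivity)]
    linarith
  have hn2 : (100 : ℝ) ≤ (n : ℝ) ^ 2 := by nlinarith
  have hxhalf : x ≤ 1 / 2 := by
    refine hx40.trans ?_
    rw [div_le_div_iff₀ (by positivity) (by norm_num)]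
    linarith
  have hp2 : p2 M ≤ 20 / (n : ℝ) ^ 2 := by
    have h1 := p2_sq_le M
    have h2 := (p2_pos M).le
    have h3 : (p2 M * Real.sqrt M) ^ 2 ≤ 1 ^ 2 := by
      rw [mul_pow, Real.sq_sqrt hM0.le]
      nlinarith [sq_nonneg (p2 M)]
    have h4 : p2 M * Real.sqrt M ≤ 1 := by
      exact (pow_le_pow_iff_left₀ (by positivity) (by norm_num) (by norm_num)).mp h3
    rw [le_div_iff₀ (by positivity)]
    have h5 : p2 M * ((n : ℝ) ^ 2 / 20) ≤ p2 M * Real.sqrt M :=
      mul_le_mul_of_nonneg_left hsq h2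
    linarith
  set y := x * (4 * n * p2 M) + 4 / (M : ℝ) with hy
  have hy0 : 0 ≤ y := by
    have := (p2_pos M).le
    positivity
  have h := iterate (n := n) (k := 5) (by norm_num) (by omega) hM1 hx (by linarith) hy
    ((univ : Finset (Fin n)).offDiag) (Subset.refl _)
  refine le_trans ?_ h
  apply mul_le_mul_of_nonneg_right _ (by positivity)
  set L := ((univ : Finset (Fin n)).offDiag).card with hL
  have hLn : (L : ℝ) ≤ (n : ℝ) ^ 2 := by
    rw [hL, offDiag_card, card_univ, Fintype.card_fin]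
    have : ((n * n - n : ℕ) : ℝ) ≤ ((n * n : ℕ) : ℝ) := by
      exact_mod_cast Nat.sub_le _ _
    refine this.trans (le_of_eq ?_)
    push_cast
    ring
  have hexp : Real.exp (-80) ≤ (1 - x) ^ L := by
    have h1 := exp_bound hx0 hxhalf
    have h2 : Real.exp (-(2 * x)) ^ L ≤ (1 - x) ^ L :=
      pow_le_pow_left₀ (Real.exp_pos _).le h1 L
    refine le_trans ?_ h2
    rw [← Real.exp_nat_mul]
    apply Real.exp_le_exp.mpr
    have h3 : (L : ℝ) * x ≤ 40 := by
      calc (L : ℝ) * x ≤ (n : ℝ) ^ 2 * (40 / (n : ℝ) ^ 2) :=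
            mul_le_mul hLn hx40 hx0 (by positivity)
        _ = 40 := by
            field_simp
    linarith
  have hLy : (L : ℝ) * y ≤ 4800 / n := by
    have h1 : y ≤ 40 / (n : ℝ) ^ 2 * (4 * n * (20 / (n : ℝ) ^ 2)) + 1600 / (n : ℝ) ^ 4 := by
      rw [hy]
      apply add_le_add
      · apply mul_le_mul hx40 _ _ (by positivity)
        · apply mul_le_mul_of_nonneg_left hp2 (by positivity)
        · have := (p2_pos M).le
          positivity
      · rw [div_le_div_iff₀ hM0 (by positivity)]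
        linarith
    calc (L : ℝ) * y ≤ (n : ℝ) ^ 2 * (40 / (n : ℝ) ^ 2 * (4 * n * (20 / (n : ℝ) ^ 2)) +
          1600 / (n : ℝ) ^ 4) := mul_le_mul hLn h1 hy0 (by positivity)
      _ = 3200 / n + 1600 / (n : ℝ) ^ 2 := by
          field_simp
          ring
      _ ≤ 3200 / n + 1600 / n := by
          apply add_le_add le_rfl
          rw [div_le_div_iff₀ (by positivity) hn0]
          nlinarith
      _ = 4800 / n := by ring
  linarith

theorem main5 : ∃ c : ℝ, 0 < c ∧ ∃ N : ℕ, ∀ n : ℕ, N ≤ n →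
    c * 2 ^ (n.choose 5) ≤ (((full n 5).powerset.filter
      (fun H => Function.Injective (fun v : Fin n => deg H v))).card : ℝ) := by
  refine ⟨Real.exp (-80) / 2, by positivity, max 10 (Nat.ceil (9600 / Real.exp (-80))), ?_⟩
  intro n hn
  have h10 : 10 ≤ n := le_trans (le_max_left _ _) hn
  have h2 : Nat.ceil (9600 / Real.exp (-80)) ≤ n := le_trans (le_max_right _ _) hn
  have h3 : 9600 / Real.exp (-80) ≤ n := (Nat.le_ceil _).trans (by exact_mod_cast h2)
  have hnr : (10 : ℝ) ≤ n := by exact_mod_cast h10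
  have hn0 : (0 : ℝ) < n := by linarith
  have h4 : 4800 / (n : ℝ) ≤ Real.exp (-80) / 2 := by
    rw [div_le_iff₀ (Real.exp_pos _)] at h3
    rw [div_le_div_iff₀ hn0 (by norm_num)]
    linarith
  have h5 := five h10
  have h6 : Real.exp (-80) / 2 * 2 ^ (n.choose 5) ≤
      (Real.exp (-80) - 4800 / n) * 2 ^ (n.choose 5) := by
    apply mul_le_mul_of_nonneg_right _ (by positivity)
    linarith
  refine h6.trans (h5.trans ?_)
  unfold al
  apply Nat.cast_le.mpr
  apply card_le_card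
  intro H hH
  rw [mem_filter] at hH ⊢
  refine ⟨hH.1, ?_⟩
  intro v w hvw
  by_contra hne
  exact hH.2 (v, w) (by rw [mem_offDiag]; exact ⟨mem_univ _, mem_univ _, hne⟩) hvw

end Pool.Agent.V11143.Deg
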