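import Pool.Agent.V11143.Deg3

/-!
# The limit
-/

set_option autoImplicit false

namespace Pool.Agent.V11143.Deg

open Finset

lemma choose_facts {k t : ℕ} (hk : k = 3 ∨ k = 4) (ht : 1 ≤ t) :
    ((t + 4).choose (k - 1) ≤ (t + 6) ^ 3) ∧ ((t + 4).choose (k - 1) ≤ 3 * (t + 3).choose (k - 1)) ∧
    (t * (t + 1) * (t + 4).choose (k - 1) ≤ (t + 4) * (t + 3) * (t + 2).choose (k - 1)) ∧
    1 ≤ (t + 2).choose (k - 1) := by
  have h2 : ∀ s : ℕ, 2 * (s + 2).choose 2 = (s + 2) * (s + 1) := by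
    intro s
    have := Nat.choose_two_right (s + 2)
    have h3 : (s + 2) * (s + 2 - 1) = (s + 2) * (s + 1) := by
      congr 1
    rw [h3] at this
    have h4 : 2 ∣ (s + 2) * (s + 1) := by
      have := Nat.even_mul_succ_self (s + 1)
      rw [mul_comm] at this
      exact this.two_dvd
    omega
  have h3 : ∀ s : ℕ, 3 * (s + 3).choose 3 = (s + 3) * (s + 2).choose 2 := by
    intro s
    have := Nat.add_one_mul_choose_eq (s + 2) 2
    have e : s + 2 + 1 = s + 3 := by ring
    rw [e] at this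
    linarith
  obtain ⟨s, rfl⟩ : ∃ s, t = s + 1 := ⟨t - 1, by omega⟩
  rcases hk with rfl | rfl
  · have a1 := h2 (s + 3)
    have a2 := h2 (s + 2)
    have a3 := h2 (s + 1)
    have e1 : s + 3 + 2 = s + 1 + 4 := by ring
    have e2 : s + 2 + 2 = s + 1 + 3 := by ring
    have e3 : s + 1 + 2 = s + 1 + 2 := by ring
    rw [e1] at a1
    rw [e2] at a2
    simp only [show 3 - 1 = 2 from rfl]
    refine ⟨?_, ?_, ?_, ?_⟩ <;> nlinarith
  · have a1 := h2 (s + 2)
    have a2 := h2 (s + 1)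
    have a3 := h2 s
    have b1 := h3 (s + 2)
    have b2 := h3 (s + 1)
    have b3 := h3 s
    have e1 : s + 2 + 3 = s + 1 + 4 := by ring
    have e2 : s + 1 + 3 = s + 1 + 3 := by ring
    have e3 : s + 3 = s + 1 + 2 := by ring
    have e4 : s + 2 + 2 = s + 1 + 3 := by ring
    rw [e1] at b1
    rw [e3] at b3
    simp only [show 4 - 1 = 3 from rfl]
    set A := (s + 1 + 4).choose 3
    set B := (s + 1 + 3).choose 3
    set C := (s + 1 + 2).choose 3
    have c1 : 6 * A = (s + 5) * ((s + 4) * (s + 3)) := by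
      calc 6 * A = 2 * (3 * A) := by ring
        _ = (s + 5) * (2 * (s + 2 + 2).choose 2) := by rw [b1]; ring
        _ = _ := by rw [a1]
    have c2 : 6 * B = (s + 4) * ((s + 3) * (s + 2)) := by
      calc 6 * B = 2 * (3 * B) := by ring
        _ = (s + 4) * (2 * (s + 1 + 2).choose 2) := by rw [b2]; ring
        _ = _ := by rw [a2]
    have c3 : 6 * C = (s + 3) * ((s + 2) * (s + 1)) := by
      calc 6 * C = 2 * (3 * C) := by ring
        _ = (s + 3) * (2 * (s + 2).choose 2) := by rw [b3]; ring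
        _ = _ := by rw [a3]
    refine ⟨?_, ?_, ?_, ?_⟩
    · have : 6 * A ≤ 6 * (s + 1 + 6) ^ 3 := by
        rw [c1]
        nlinarith [Nat.zero_le (s ^ 3), Nat.zero_le (s ^ 2), Nat.zero_le s]
      omega
    · have : 6 * A ≤ 6 * (3 * B) := by
        have : 6 * (3 * B) = 3 * (6 * B) := by ring
        rw [this, c1, c2]
        nlinarith [Nat.zero_le (s ^ 3), Nat.zero_le (s ^ 2), Nat.zero_le s]
      omega
    · have : 6 * ((s + 1) * (s + 1 + 1) * A) ≤ 6 * ((s + 1 + 4) * (s + 1 + 3) * C) := by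
        have e5 : 6 * ((s + 1) * (s + 1 + 1) * A) = (s + 1) * (s + 1 + 1) * (6 * A) := by ring
        have e6 : 6 * ((s + 1 + 4) * (s + 1 + 3) * C) = (s + 1 + 4) * (s + 1 + 3) * (6 * C) := by
          ring
        rw [e5, e6, c1, c3]
        apply le_of_eq
        ring
      omega
    · have : 0 < 6 * C := by
        rw [c3]
        positivity
      omega

lemma numeric {τ P a M m3 m4 β γ : ℝ} (ht : 1 ≤ τ) (hPv : P = (τ + 6) * (τ + 5)) (ha0 : 0 < a)
    (hM : 1 ≤ M) (hm3 : 1 ≤ m3) (hm4 : 1 ≤ m4) (g1 : M ≤ (τ + 6) ^ 3) (g2 : M ≤ 3 * m3)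
    (g3 : τ * (τ + 1) * M ≤ (τ + 4) * (τ + 3) * m4) (q1 : 1 / 4 ≤ M * a ^ 2)
    (q2 : m4 * γ ≤ M * a ^ 2) (hβ0 : 0 ≤ β) (q3 : m3 * β ≤ 1) (hγ0 : 0 ≤ γ) :
    2 / (P * a) + 4 * (τ + 6) * β / (P * a ^ 2) + (γ / a ^ 2 - 1) ≤
      8 / Real.sqrt (τ + 6) + 48 / (τ + 5) + 18 / (τ + 1) := by
  have hP0 : 0 < P := by
    rw [hPv]
    positivity
  have hinv : 1 / a ^ 2 ≤ 4 * M := by
    rw [div_le_iff₀ (by positivity)]
    linarith
  have t1 : 2 / (P * a) ≤ 8 / Real.sqrt (τ + 6) := by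
    have hn0 : 0 < τ + 6 := by positivity
    have hsq : 0 < Real.sqrt (τ + 6) := Real.sqrt_pos.mpr hn0
    rw [div_le_div_iff₀ (by positivity) hsq]
    have h4 : Real.sqrt (τ + 6) ≤ 4 * (P * a) := by
      apply Real.sqrt_le_iff.mpr
      refine ⟨by positivity, ?_⟩
      have h5 : (4 * (P * a)) ^ 2 = 16 * P ^ 2 * a ^ 2 := by ring
      rw [h5]
      have h6 : 1 / (4 * M) ≤ a ^ 2 := by
        rw [div_le_iff₀ (by positivity)]
        linarith
      have h7 : τ + 6 ≤ 16 * P ^ 2 * (1 / (4 * M)) := by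
        rw [mul_one_div, le_div_iff₀ (by positivity), hPv]
        have h8 : (τ + 6) * (4 * M) ≤ (τ + 6) * (4 * (τ + 6) ^ 3) := by
          apply mul_le_mul_of_nonneg_left _ (by positivity)
          linarith
        refine h8.trans ?_
        have h9 : τ + 6 ≤ 2 * (τ + 5) := by linarith
        have h10 : (τ + 6) ^ 2 ≤ (2 * (τ + 5)) ^ 2 := by
          apply pow_le_pow_left₀ (by positivity) h9
        calc (τ + 6) * (4 * (τ + 6) ^ 3) = 4 * (τ + 6) ^ 2 * (τ + 6) ^ 2 := by ring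
          _ ≤ 4 * (τ + 6) ^ 2 * (2 * (τ + 5)) ^ 2 := by
            apply mul_le_mul_of_nonneg_left h10 (by positivity)
          _ = _ := by ring
      refine h7.trans ?_
      apply mul_le_mul_of_nonneg_left h6 (by positivity)
    linarith
  have t2 : 4 * (τ + 6) * β / (P * a ^ 2) ≤ 48 / (τ + 5) := by
    calc 4 * (τ + 6) * β / (P * a ^ 2) = 4 * β * (1 / a ^ 2) / (τ + 5) := by
          rw [hPv]
          field_simp
      _ ≤ 4 * β * (4 * M) / (τ + 5) := by
          apply div_le_div_of_nonneg_right _ (by positivity)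
          apply mul_le_mul_of_nonneg_left hinv (by positivity)
      _ ≤ 48 / (τ + 5) := by
          apply div_le_div_of_nonneg_right _ (by positivity)
          have h5 : β * M ≤ 3 := by
            calc β * M ≤ β * (3 * m3) := mul_le_mul_of_nonneg_left g2 hβ0
              _ = 3 * (m3 * β) := by ring
              _ ≤ 3 := by linarith
          linarith
  have t3 : γ / a ^ 2 - 1 ≤ 18 / (τ + 1) := by
    have h4 : γ / a ^ 2 ≤ (τ + 4) * (τ + 3) / (τ * (τ + 1)) := by
      rw [div_le_div_iff₀ (by positivity) (by positivity)]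
      have h5 : m4 * (γ * (τ * (τ + 1))) ≤ m4 * ((τ + 4) * (τ + 3) * a ^ 2) := by
        calc m4 * (γ * (τ * (τ + 1))) = (m4 * γ) * (τ * (τ + 1)) := by ring
          _ ≤ (M * a ^ 2) * (τ * (τ + 1)) := by
            apply mul_le_mul_of_nonneg_right q2 (by positivity)
          _ = (τ * (τ + 1) * M) * a ^ 2 := by ring
          _ ≤ ((τ + 4) * (τ + 3) * m4) * a ^ 2 := by
            apply mul_le_mul_of_nonneg_right g3 (by positivity)
          _ = _ := by ring
      exact le_of_mul_le_mul_left h5 (by positivity)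
    have h5 : (τ + 4) * (τ + 3) / (τ * (τ + 1)) - 1 ≤ 18 / (τ + 1) := by
      have h6 : (τ + 4) * (τ + 3) / (τ * (τ + 1)) - 1 = (6 * τ + 12) / (τ * (τ + 1)) := by
        field_simp
        ring
      rw [h6, div_le_div_iff₀ (by positivity) (by positivity)]
      nlinarith
    linarith
  linarith

/-- The number of `k`-uniform hypergraphs with all degrees distinct. -/
noncomputable def bad (n k : ℕ) : ℝ :=
  ((full n k).powerset.filter (fun H => ¬ ∃ v w : Fin n, v ≠ w ∧ deg H v = deg H w)).card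

lemma bad_le {k t : ℕ} (hk : k = 3 ∨ k = 4) (ht : 1 ≤ t) :
    bad (t + 6) k ≤ 2 ^ ((t + 6).choose k) *
      (8 / Real.sqrt ((t + 6 : ℕ) : ℝ) + 48 / ((t : ℝ) + 5) + 18 / ((t : ℝ) + 1)) := by
  have hk1 : 1 ≤ k := by omega
  have h := main_bound (n := t + 6) (k := k) hk1 (by omega)
  obtain ⟨f1, f2, f3, f4⟩ := choose_facts hk ht
  have s1 : t + 6 - 2 = t + 4 := by omega
  have s2 : t + 6 - 3 = t + 3 := by omega
  have s3 : t + 6 - 4 = t + 2 := by omega
  rw [s1, s2, s3] at h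
  change bad (t + 6) k * _ ≤ _ at h
  set Z := bad (t + 6) k with hZ
  have hZ0 : 0 ≤ Z := Nat.cast_nonneg _
  set T := (2 : ℝ) ^ ((t + 6).choose k) with hT
  have hT0 : 0 < T := by positivity
  set M := (t + 4).choose (k - 1) with hM
  set m3 := (t + 3).choose (k - 1) with hm3
  set m4 := (t + 2).choose (k - 1) with hm4
  have hM1 : 1 ≤ M := f4.trans (Nat.choose_le_choose _ (by omega))
  have hm31 : 1 ≤ m3 := f4.trans (Nat.choose_le_choose _ (by omega))
  set P := ((univ : Finset (Fin (t + 6))).offDiag.card : ℝ) with hP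
  have hPv : P = ((t : ℝ) + 6) * ((t : ℝ) + 5) := by
    rw [hP, offDiag_card, card_univ, Fintype.card_fin]
    have : (t + 6) * (t + 6) - (t + 6) = (t + 6) * (t + 5) := by
      have : (t + 6) * (t + 6) = (t + 6) * (t + 5) + (t + 6) := by ring
      omega
    rw [this]
    push_cast
    ring
  have htr : (1 : ℝ) ≤ t := by exact_mod_cast ht
  have hP0 : 0 < P := by
    rw [hPv]
    positivity
  set a := p2 M with ha
  have ha0 : 0 < a := p2_pos _
  have hMr : (1 : ℝ) ≤ M := by exact_mod_cast hM1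
  have hm3r : (1 : ℝ) ≤ m3 := by exact_mod_cast hm31
  have hm4r : (1 : ℝ) ≤ m4 := by exact_mod_cast f4
  have g1 : (M : ℝ) ≤ ((t : ℝ) + 6) ^ 3 := by exact_mod_cast f1
  have g2 : (M : ℝ) ≤ 3 * m3 := by exact_mod_cast f2
  have g3 : (t : ℝ) * (t + 1) * M ≤ (t + 4) * (t + 3) * m4 := by exact_mod_cast f3
  have q1 : 1 / 4 ≤ (M : ℝ) * a ^ 2 := p2_sq_ge hM1
  have q2 : (m4 : ℝ) * p2 m4 ^ 2 ≤ (M : ℝ) * a ^ 2 :=
    p2_mono (Nat.choose_le_choose _ (by omega))
  set β := p1 m3 * p2 m3 with hβ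
  have hβ0 : 0 ≤ β := mul_nonneg (p1_nonneg _) (p2_pos _).le
  have q3 : (m3 : ℝ) * β ≤ 1 := by
    have r1 := p1_sq_le m3
    have r2 := p2_sq_le m3
    have r3 : (m3 : ℝ) * p2 m3 ^ 2 ≤ 1 := by nlinarith [sq_nonneg (p2 m3)]
    have r4 : 0 ≤ (m3 : ℝ) * (p1 m3 - p2 m3) ^ 2 := by positivity
    rw [hβ]
    nlinarith
  set γ := p2 m4 ^ 2 with hγ
  have hγ0 : 0 ≤ γ := sq_nonneg _
  -- reduce
  have hPa : 0 < (P * a) ^ 2 := by positivity
  have h2 : Z ≤ T * (2 / (P * a) + 4 * (t + 6) * β / (P * a ^ 2) + (γ / a ^ 2 - 1)) := by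
    have h3 : T * (2 / (P * a) + 4 * (t + 6) * β / (P * a ^ 2) + (γ / a ^ 2 - 1)) =
        T * (P * (2 * a + 4 * ((t + 6 : ℕ) : ℝ) * β + P * γ) - (P * a) ^ 2) / (P * a) ^ 2 := by
      push_cast
      field_simp
      ring
    rw [h3, le_div_iff₀ hPa]
    exact h
  refine h2.trans (mul_le_mul_of_nonneg_left ?_ hT0.le)
  have := numeric htr hPv ha0 hMr hm3r hm4r g1 g2 g3 q1 q2 hβ0 q3 hγ0
  push_cast
  exact this

theorem main (k : ℕ) (hk : k = 3 ∨ k = 4) :
    Filter.Tendsto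
      (fun n : ℕ =>
        ((((Finset.univ : Finset (Fin n)).powersetCard k).powerset.filter
            (fun H => ∃ v w : Fin n, v ≠ w ∧
              (H.filter (fun e => v ∈ e)).card = (H.filter (fun e => w ∈ e)).card)).card : ℝ)
          / ((((Finset.univ : Finset (Fin n)).powersetCard k).powerset.card : ℝ)))
      Filter.atTop (nhds 1) := by
  have hlow : ∀ᶠ n : ℕ in Filter.atTop, 1 - (8 / Real.sqrt (n : ℝ) + 48 / ((n : ℝ) - 1) +
      18 / ((n : ℝ) - 5)) ≤ ((((Finset.univ : Finset (Fin n)).powersetCard k).powerset.filter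
            (fun H => ∃ v w : Fin n, v ≠ w ∧
              (H.filter (fun e => v ∈ e)).card = (H.filter (fun e => w ∈ e)).card)).card : ℝ)
          / ((((Finset.univ : Finset (Fin n)).powersetCard k).powerset.card : ℝ)) := by
    filter_upwards [Filter.eventually_ge_atTop 7] with n hn
    obtain ⟨t, rfl⟩ : ∃ t, n = t + 6 := ⟨n - 6, by omega⟩
    have h1 := bad_le (k := k) (t := t) hk (by omega)
    have h2 := card_filter_add_card_filter_not (s := (full (t + 6) k).powerset)
      (fun H => ∃ v w : Fin (t + 6), v ≠ w ∧ deg H v = deg H w)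
    have h3 : (((full (t + 6) k).powerset.card : ℕ) : ℝ) = 2 ^ ((t + 6).choose k) := by
      rw [card_powerset, card_full]
      push_cast
      rfl
    have h4 : ((((full (t + 6) k).powerset.filter
        (fun H => ∃ v w : Fin (t + 6), v ≠ w ∧ deg H v = deg H w)).card : ℕ) : ℝ) +
        bad (t + 6) k = 2 ^ ((t + 6).choose k) := by
      rw [← h3]
      unfold bad
      exact_mod_cast h2
    change _ ≤ ((((full (t + 6) k).powerset.filter
        (fun H => ∃ v w : Fin (t + 6), v ≠ w ∧ deg H v = deg H w)).card : ℕ) : ℝ) /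
        (((full (t + 6) k).powerset.card : ℕ) : ℝ)
    rw [h3]
    have hT0 : (0 : ℝ) < 2 ^ ((t + 6).choose k) := by positivity
    rw [le_div_iff₀ hT0]
    have e1 : ((t + 6 : ℕ) : ℝ) - 1 = t + 5 := by
      push_cast
      ring
    have e2 : ((t + 6 : ℕ) : ℝ) - 5 = t + 1 := by
      push_cast
      ring
    rw [e1, e2]
    linarith
  have hup : ∀ᶠ n : ℕ in Filter.atTop, ((((Finset.univ : Finset (Fin n)).powersetCard k).powerset.filter
            (fun H => ∃ v w : Fin n, v ≠ w ∧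
              (H.filter (fun e => v ∈ e)).card = (H.filter (fun e => w ∈ e)).card)).card : ℝ)
          / ((((Finset.univ : Finset (Fin n)).powersetCard k).powerset.card : ℝ)) ≤ 1 := by
    filter_upwards with n
    apply div_le_one_of_le₀ _ (by positivity)
    exact_mod_cast card_filter_le _ _
  have hlim : Filter.Tendsto (fun n : ℕ => 1 - (8 / Real.sqrt (n : ℝ) + 48 / ((n : ℝ) - 1) +
      18 / ((n : ℝ) - 5))) Filter.atTop (nhds 1) := by
    have hn : Filter.Tendsto (fun n : ℕ => (n : ℝ)) Filter.atTop Filter.atTop :=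
      tendsto_natCast_atTop_atTop
    have l1 : Filter.Tendsto (fun n : ℕ => 8 / Real.sqrt (n : ℝ)) Filter.atTop (nhds 0) :=
      tendsto_const_nhds.div_atTop (Real.tendsto_sqrt_atTop.comp hn)
    have l2 : Filter.Tendsto (fun n : ℕ => 48 / ((n : ℝ) - 1)) Filter.atTop (nhds 0) :=
      tendsto_const_nhds.div_atTop (Filter.tendsto_atTop_add_const_right _ (-1) hn)
    have l3 : Filter.Tendsto (fun n : ℕ => 18 / ((n : ℝ) - 5)) Filter.atTop (nhds 0) :=
      tendsto_const_nhds.div_atTop (Filter.tendsto_atTop_add_const_right _ (-5) hn)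
    have := (tendsto_const_nhds (x := (1 : ℝ)) (f := Filter.atTop (α := ℕ))).sub ((l1.add l2).add l3)
    simpa using this
  exact tendsto_of_tendsto_of_tendsto_of_le_of_le' hlim tendsto_const_nhds hlow hup

end Pool.Agent.V11143.Deg
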