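import Mathlib

/-!
# Counting hypergraphs with prescribed degree coincidences
-/

set_option autoImplicit false

namespace Pool.Agent.V11143.Deg

open Finset

section general

variable {α : Type*} [DecidableEq α]

/-- The middle binomial coefficient. -/
def mid (m : ℕ) : ℕ := m.choose (m / 2)

lemma mid_two_mul (m : ℕ) : mid (2 * m) = m.centralBinom := by
  unfold mid Nat.centralBinom
  congr 1
  omega

lemma card_diff_le (P Q : Finset α) (hd : Disjoint P Q) (g : ℤ) :
    (((P ∪ Q).powerset.filter (fun C => ((C ∩ P).card : ℤ) - ((C ∩ Q).card : ℤ) = g)).card)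
      ≤ mid ((P ∪ Q).card) := by
  have key : ∀ C ∈ (P ∪ Q).powerset.filter
      (fun C => ((C ∩ P).card : ℤ) - ((C ∩ Q).card : ℤ) = g),
      (C ∩ P) ∪ (Q \ C) ∈ powersetCard (g + Q.card).toNat (P ∪ Q) := by
    intro C hC
    rw [mem_filter, mem_powerset] at hC
    obtain ⟨hC1, hC2⟩ := hC
    rw [mem_powersetCard]
    refine ⟨union_subset (inter_subset_right.trans subset_union_left)
      (sdiff_subset.trans subset_union_right), ?_⟩
    rw [card_union_of_disjoint]
    · have h1 : (Q \ C).card + (C ∩ Q).card = Q.card := by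
        rw [inter_comm C Q]
        exact card_sdiff_add_card_inter Q C
      omega
    · exact disjoint_of_subset_left inter_subset_right (disjoint_of_subset_right sdiff_subset hd)
  calc _ ≤ (powersetCard (g + Q.card).toNat (P ∪ Q)).card := by
        apply card_le_card_of_injOn (fun C => (C ∩ P) ∪ (Q \ C)) key
        intro C hC D hD heq
        rw [mem_coe, mem_filter, mem_powerset] at hC hD
        have hinv : ∀ C : Finset α, C ⊆ P ∪ Q →
            C = (((C ∩ P) ∪ (Q \ C)) ∩ P) ∪ (Q \ ((C ∩ P) ∪ (Q \ C))) := by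
          intro C hC
          ext x
          have hPQ : x ∈ P → x ∉ Q := fun h1 h2 => (disjoint_left.mp hd) h1 h2
          have := @hC x
          simp only [mem_union, mem_inter, mem_sdiff] at this ⊢
          tauto
        rw [hinv C hC.1, hinv D hD.1]
        simp only at heq
        rw [heq]
    _ = (P ∪ Q).card.choose (g + Q.card).toNat := card_powersetCard _ _
    _ ≤ mid ((P ∪ Q).card) := Nat.choose_le_middle _ _

/-- Conditioning on everything outside `P ∪ Q`. -/
lemma fiber_le (E P Q : Finset α) (hd : Disjoint P Q) (g : Finset α → ℤ)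
    (prop : Finset α → Prop) [DecidablePred prop] :
    (E.powerset.filter (fun H => ((H ∩ P).card : ℤ) - ((H ∩ Q).card : ℤ) = g (H \ (P ∪ Q)) ∧
      prop (H \ (P ∪ Q)))).card
      ≤ mid ((P ∪ Q).card) * ((E \ (P ∪ Q)).powerset.filter prop).card := by
  apply card_le_mul_card_image_of_maps_to (f := fun H => H \ (P ∪ Q))
  · intro H hH
    rw [mem_filter, mem_powerset] at hH ⊢
    exact ⟨sdiff_subset_sdiff hH.1 Subset.rfl, hH.2.2⟩
  · intro b _
    refine le_trans ?_ (card_diff_le P Q hd (g b))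
    apply card_le_card_of_injOn (fun H => H ∩ (P ∪ Q))
    · intro H hH
      rw [mem_coe, mem_filter, mem_filter, mem_powerset] at hH
      obtain ⟨⟨h1, h2, h3⟩, h4⟩ := hH
      rw [mem_coe, mem_filter, mem_powerset]
      refine ⟨inter_subset_right, ?_⟩
      rw [← h4, ← h2]
      congr 3
      · ext x; simp only [mem_inter, mem_union]; tauto
      · ext x; simp only [mem_inter, mem_union]; tauto
    · intro H hH K hK heq
      rw [mem_coe, mem_filter] at hH hK
      simp only at heq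
      have h1 := hH.2
      have h2 := hK.2
      rw [← sdiff_union_inter H (P ∪ Q), ← sdiff_union_inter K (P ∪ Q), heq]
      congr 1
      exact h1.trans h2.symm

lemma balanced_ge (E P Q : Finset α) (hP : P ⊆ E) (hQ : Q ⊆ E) (hd : Disjoint P Q) (m : ℕ)
    (hPm : P.card = m) (hQm : Q.card = m) :
    m.centralBinom * 2 ^ (E.card - 2 * m) ≤
      (E.powerset.filter (fun H => (H ∩ P).card = (H ∩ Q).card)).card := by
  have hPQ : (P ∪ Q).card = 2 * m := by rw [card_union_of_disjoint hd]; omega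
  have h1 : m.centralBinom * 2 ^ (E.card - 2 * m) =
      (powersetCard m (P ∪ Q) ×ˢ (E \ (P ∪ Q)).powerset).card := by
    rw [card_product, card_powersetCard, card_powerset,
      card_sdiff_of_subset (union_subset hP hQ), hPQ]
    rfl
  rw [h1]
  apply card_le_card_of_injOn (fun x => ((x.1 ∩ P) ∪ (Q \ x.1)) ∪ x.2)
  · rintro ⟨C, H⟩ hx
    rw [mem_coe, mem_product, mem_powersetCard, mem_powerset] at hx
    obtain ⟨⟨hC, hCm⟩, hH⟩ := hx
    simp only at hC hCm hH
    rw [mem_coe, mem_filter, mem_powerset]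
    refine ⟨?_, ?_⟩
    · refine union_subset (union_subset (inter_subset_right.trans hP) (sdiff_subset.trans hQ))
        (hH.trans sdiff_subset)
    · have e1 : ((C ∩ P ∪ Q \ C) ∪ H) ∩ P = C ∩ P := by
        ext x
        have hx1 : x ∈ P → x ∉ Q := fun h1 h2 => (disjoint_left.mp hd) h1 h2
        have hx2 := @hH x
        simp only [mem_union, mem_inter, mem_sdiff] at hx2 ⊢
        tauto
      have e2 : ((C ∩ P ∪ Q \ C) ∪ H) ∩ Q = Q \ C := by
        ext x
        have hx1 : x ∈ P → x ∉ Q := fun h1 h2 => (disjoint_left.mp hd) h1 h2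
        have hx2 := @hH x
        simp only [mem_union, mem_inter, mem_sdiff] at hx2 ⊢
        tauto
      simp only
      rw [e1, e2]
      have h2 : (Q \ C).card + (C ∩ Q).card = Q.card := by
        rw [inter_comm C Q]
        exact card_sdiff_add_card_inter Q C
      have h3 : C.card = (C ∩ P).card + (C ∩ Q).card := by
        rw [← card_union_of_disjoint, ← inter_union_distrib_left, inter_eq_left.mpr hC]
        exact disjoint_of_subset_left inter_subset_right
          (disjoint_of_subset_right inter_subset_right hd)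
      omega
  · rintro ⟨C, H⟩ hx ⟨C', H'⟩ hx' heq
    rw [mem_coe, mem_product, mem_powersetCard, mem_powerset] at hx hx'
    simp only at hx hx' heq
    have hrec : ∀ C H : Finset α, C ⊆ P ∪ Q → H ⊆ E \ (P ∪ Q) →
        ((((C ∩ P ∪ Q \ C) ∪ H) ∩ P) ∪ (Q \ ((C ∩ P ∪ Q \ C) ∪ H)) = C ∧
          ((C ∩ P ∪ Q \ C) ∪ H) \ (P ∪ Q) = H) := by
      intro C H hC hH
      constructor
      · ext x
        have h2 : x ∈ P → x ∉ Q := fun h1 h2 => (disjoint_left.mp hd) h1 h2
        have h3 := @hC x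
        have h5 := @hH x
        simp only [mem_union, mem_inter, mem_sdiff] at h3 h5 ⊢
        by_cases hP : x ∈ P <;> by_cases hQ : x ∈ Q <;> simp_all
      · ext x
        have h5 := @hH x
        simp only [mem_union, mem_inter, mem_sdiff] at h5 ⊢
        by_cases hP : x ∈ P <;> by_cases hQ : x ∈ Q <;> simp_all
    have h1 := hrec C H hx.1.1 hx.2
    have h2 := hrec C' H' hx'.1.1 hx'.2
    rw [heq] at h1
    exact Prod.ext (h1.1.symm.trans h2.1) (h1.2.symm.trans h2.2)

end general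

section binom

/-- `(2m+1) C(2m,m)² ≤ 16^m`. -/
lemma cb_upper (m : ℕ) : (2 * m + 1) * m.centralBinom ^ 2 ≤ 16 ^ m := by
  induction m with
  | zero => simp
  | succ m ih =>
    have h := Nat.succ_mul_centralBinom_succ m
    -- (m+1) cb(m+1) = 2 (2m+1) cb m
    have h2 : (m + 1) ^ 2 * ((2 * (m + 1) + 1) * (m + 1).centralBinom ^ 2) ≤
        (m + 1) ^ 2 * 16 ^ (m + 1) := by
      calc (m + 1) ^ 2 * ((2 * (m + 1) + 1) * (m + 1).centralBinom ^ 2)
          = (2 * m + 3) * ((m + 1) * (m + 1).centralBinom) ^ 2 := by ring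
        _ = (2 * m + 3) * (2 * (2 * m + 1) * m.centralBinom) ^ 2 := by rw [h]
        _ = 4 * ((2 * m + 3) * (2 * m + 1)) * ((2 * m + 1) * m.centralBinom ^ 2) := by ring
        _ ≤ 4 * (4 * (m + 1) ^ 2) * ((2 * m + 1) * m.centralBinom ^ 2) := by
            apply Nat.mul_le_mul_right
            apply Nat.mul_le_mul_left
            nlinarith
        _ ≤ 4 * (4 * (m + 1) ^ 2) * 16 ^ m := Nat.mul_le_mul_left _ ih
        _ = (m + 1) ^ 2 * 16 ^ (m + 1) := by ring
    exact Nat.le_of_mul_le_mul_left h2 (by positivity)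

/-- The quantity `m C(2m,m)² / 16^m` is nondecreasing: one step. -/
lemma cb_step (m : ℕ) :
    16 * (m * m.centralBinom ^ 2) ≤ (m + 1) * (m + 1).centralBinom ^ 2 := by
  have h := Nat.succ_mul_centralBinom_succ m
  have h2 : (m + 1) * (16 * (m * m.centralBinom ^ 2)) ≤
      (m + 1) * ((m + 1) * (m + 1).centralBinom ^ 2) := by
    calc (m + 1) * (16 * (m * m.centralBinom ^ 2))
        = (4 * (m * (m + 1))) * (4 * m.centralBinom ^ 2) := by ring
      _ ≤ ((2 * m + 1) ^ 2) * (4 * m.centralBinom ^ 2) := by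
          apply Nat.mul_le_mul_right
          nlinarith
      _ = (2 * (2 * m + 1) * m.centralBinom) ^ 2 := by ring
      _ = ((m + 1) * (m + 1).centralBinom) ^ 2 := by rw [h]
      _ = (m + 1) * ((m + 1) * (m + 1).centralBinom ^ 2) := by ring
  exact Nat.le_of_mul_le_mul_left h2 (by positivity)

/-- `p2 m = C(2m,m)/4^m`. -/
noncomputable def p2 (m : ℕ) : ℝ := (m.centralBinom : ℝ) / 4 ^ m

/-- `p1 m = C(m,⌊m/2⌋)/2^m`. -/
noncomputable def p1 (m : ℕ) : ℝ := (mid m : ℝ) / 2 ^ m

lemma p2_pos (m : ℕ) : 0 < p2 m := by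
  unfold p2
  have := Nat.centralBinom_pos m
  positivity

lemma p1_nonneg (m : ℕ) : 0 ≤ p1 m := by
  unfold p1
  positivity

lemma p2_sq_le (m : ℕ) : (2 * m + 1 : ℝ) * p2 m ^ 2 ≤ 1 := by
  have h := cb_upper m
  have h' : ((2 * m + 1 : ℝ)) * (m.centralBinom : ℝ) ^ 2 ≤ 16 ^ m := by exact_mod_cast h
  unfold p2
  rw [div_pow, ← pow_mul, mul_comm m 2, pow_mul]
  norm_num
  rw [mul_div_assoc', div_le_one (by positivity)]
  exact h'

lemma p2_mono_step (m : ℕ) : (m : ℝ) * p2 m ^ 2 ≤ ((m + 1 : ℕ) : ℝ) * p2 (m + 1) ^ 2 := by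
  have h := cb_step m
  have h' : (16 : ℝ) * (m * (m.centralBinom : ℝ) ^ 2) ≤
      (m + 1) * ((m + 1).centralBinom : ℝ) ^ 2 := by exact_mod_cast h
  have h16 : (0 : ℝ) < 16 ^ m := by positivity
  have e1 : ∀ j : ℕ, p2 j ^ 2 = (j.centralBinom : ℝ) ^ 2 / 16 ^ j := by
    intro j
    unfold p2
    rw [div_pow, ← pow_mul, mul_comm j 2, pow_mul]
    norm_num
  rw [e1, e1, mul_div_assoc', mul_div_assoc', div_le_div_iff₀ (by positivity) (by positivity),
    pow_succ]
  push_cast
  calc (m : ℝ) * (m.centralBinom : ℝ) ^ 2 * (16 ^ m * 16)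
      = (16 * (m * (m.centralBinom : ℝ) ^ 2)) * 16 ^ m := by ring
    _ ≤ ((m + 1) * ((m + 1).centralBinom : ℝ) ^ 2) * 16 ^ m :=
        mul_le_mul_of_nonneg_right h' h16.le

lemma p2_mono {m m' : ℕ} (h : m' ≤ m) : (m' : ℝ) * p2 m' ^ 2 ≤ (m : ℝ) * p2 m ^ 2 := by
  induction h with
  | refl => exact le_rfl
  | step _ ih => exact ih.trans (p2_mono_step _)

lemma p2_sq_ge {m : ℕ} (hm : 1 ≤ m) : 1 / 4 ≤ (m : ℝ) * p2 m ^ 2 := by
  refine le_trans ?_ (p2_mono hm)
  have : Nat.centralBinom 1 = 2 := by decide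
  unfold p2
  rw [this]
  norm_num

lemma p1_eq_even (j : ℕ) : p1 (2 * j) = p2 j := by
  unfold p1 p2
  rw [mid_two_mul, pow_mul]
  norm_num

lemma p1_eq_odd (j : ℕ) : p1 (2 * j + 1) = p2 (j + 1) := by
  unfold p1 p2 mid
  have h1 : (2 * j + 1) / 2 = j := by omega
  have h2 : (j + 1).centralBinom = 2 * (2 * j + 1).choose j := by
    unfold Nat.centralBinom
    have : 2 * (j + 1) = (2 * j + 1) + 1 := by ring
    rw [this, Nat.choose_succ_succ]
    have h3 : (2 * j + 1).choose (j + 1) = (2 * j + 1).choose j := by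
      rw [← Nat.choose_symm_of_eq_add]
      omega
    rw [Nat.succ_eq_add_one, h3]
    ring
  rw [h1, h2]
  push_cast
  have h4 : (4 : ℝ) ^ (j + 1) = 2 * 2 ^ (2 * j + 1) := by
    rw [pow_succ, pow_succ, pow_mul]
    norm_num
    ring
  rw [h4, mul_div_mul_left _ _ (by norm_num)]

lemma p1_sq_le (m : ℕ) : (m : ℝ) * p1 m ^ 2 ≤ 1 := by
  rcases Nat.even_or_odd' m with ⟨j, rfl | rfl⟩
  · rw [p1_eq_even]
    have := p2_sq_le j
    push_cast
    nlinarith [sq_nonneg (p2 j)]
  · rw [p1_eq_odd]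
    have := p2_sq_le (j + 1)
    push_cast at this ⊢
    nlinarith [sq_nonneg (p2 (j + 1))]

lemma p1_le {m : ℕ} (hm : 1 ≤ m) : p1 m ≤ 1 / Real.sqrt m := by
  have hm0 : (0 : ℝ) < m := by exact_mod_cast hm
  have h := p1_sq_le m
  rw [le_div_iff₀ (Real.sqrt_pos.mpr hm0)]
  have h1 : (p1 m * Real.sqrt m) ^ 2 ≤ 1 := by
    rw [mul_pow, Real.sq_sqrt hm0.le]
    linarith
  exact (abs_le_one_iff_mul_self_le_one.mpr (by nlinarith) |> fun h => (abs_le.mp h).2)

end binom

end Pool.Agent.V11143.Deg
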