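import Pool.Agent.V11143.Deg

/-!
# Degree coincidences in uniform hypergraphs
-/

set_option autoImplicit false

namespace Pool.Agent.V11143.Deg

open Finset

variable {n : ℕ}

/-- The degree. -/
def deg (H : Finset (Finset (Fin n))) (v : Fin n) : ℕ := (H.filter (fun e => v ∈ e)).card

/-- All `k`-subsets. -/
def full (n k : ℕ) : Finset (Finset (Fin n)) := powersetCard k univ

/-- Members of `E` containing `v` and disjoint from `Z`. -/
def inc (E : Finset (Finset (Fin n))) (v : Fin n) (Z : Finset (Fin n)) :
    Finset (Finset (Fin n)) := E.filter (fun e => v ∈ e ∧ Disjoint e Z)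

lemma mem_inc {E : Finset (Finset (Fin n))} {v : Fin n} {Z e : Finset (Fin n)} :
    e ∈ inc E v Z ↔ e ∈ E ∧ v ∈ e ∧ Disjoint e Z := by
  unfold inc
  rw [mem_filter]

lemma card_inc {k : ℕ} (hk : 1 ≤ k) {v : Fin n} {Z : Finset (Fin n)} (hv : v ∉ Z) :
    (inc (full n k) v Z).card = (n - 1 - Z.card).choose (k - 1) := by
  have h1 : inc (full n k) v Z = (powersetCard (k - 1) (univ \ insert v Z)).image (insert v) := by
    ext e
    rw [mem_inc, mem_image]
    unfold full
    constructor
    · rintro ⟨h1, h2, h3⟩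
      rw [mem_powersetCard] at h1
      refine ⟨e.erase v, ?_, insert_erase h2⟩
      rw [mem_powersetCard]
      refine ⟨?_, by rw [card_erase_of_mem h2, h1.2]⟩
      intro x hx
      rw [mem_erase] at hx
      rw [mem_sdiff, mem_insert, not_or]
      exact ⟨mem_univ _, hx.1, disjoint_left.mp h3 hx.2⟩
    · rintro ⟨f, hf, rfl⟩
      rw [mem_powersetCard] at hf
      have hvf : v ∉ f := by
        intro h
        have := hf.1 h
        simp at this
      refine ⟨?_, mem_insert_self _ _, ?_⟩
      · rw [mem_powersetCard, card_insert_of_notMem hvf, hf.2]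
        exact ⟨subset_univ _, by omega⟩
      · rw [disjoint_insert_left]
        refine ⟨hv, disjoint_left.mpr fun x hx hxZ => ?_⟩
        have := hf.1 hx
        simp only [mem_sdiff, mem_insert, not_or] at this
        exact this.2.2 hxZ
  rw [h1, card_image_of_injOn, card_powersetCard, card_sdiff_of_subset (subset_univ _),
    card_insert_of_notMem hv, card_univ, Fintype.card_fin]
  · congr 1
    omega
  · intro f hf g hg hfg
    rw [mem_coe, mem_powersetCard] at hf hg
    have hvf : v ∉ f := fun h => by have := hf.1 h; simp at this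
    have hvg : v ∉ g := fun h => by have := hg.1 h; simp at this
    replace hfg : insert v f = insert v g := hfg
    rw [← erase_insert hvf, ← erase_insert hvg, hfg]

lemma deg_split {E : Finset (Finset (Fin n))} {H : Finset (Finset (Fin n))} (hH : H ⊆ E)
    (v : Fin n) (Z : Finset (Fin n)) (Q : Finset (Finset (Fin n))) (hQ : ∀ e ∈ Q, v ∉ e) :
    deg H v = (H ∩ inc E v Z).card + deg (H \ (inc E v Z ∪ Q)) v := by
  unfold deg
  rw [← card_union_of_disjoint]
  · congr 1
    ext e
    have h1 := @hH e
    have h2 := hQ e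
    simp only [mem_filter, mem_union, mem_inter, mem_inc, mem_sdiff]
    constructor
    · rintro ⟨h3, h4⟩
      by_cases h5 : Disjoint e Z
      · exact Or.inl ⟨h3, h1 h3, h4, h5⟩
      · exact Or.inr ⟨⟨h3, by tauto⟩, h4⟩
    · rintro (⟨h3, h4, h5, h6⟩ | ⟨⟨h3, h4⟩, h5⟩)
      · exact ⟨h3, h5⟩
      · exact ⟨h3, h5⟩
  · rw [disjoint_left]
    intro e he he'
    simp only [mem_filter, mem_union, mem_inter, mem_sdiff] at he he'
    tauto

lemma deg_sdiff {H R : Finset (Finset (Fin n))} {x : Fin n} (hR : ∀ e ∈ R, x ∉ e) :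
    deg (H \ R) x = deg H x := by
  unfold deg
  congr 1
  ext e
  have := hR e
  simp only [mem_filter, mem_sdiff]
  tauto

/-- Conditioning on the edges outside the two classes of edges which contain exactly one of `v`,
`w` and are disjoint from `W`. -/
lemma pair_fiber (E : Finset (Finset (Fin n))) {v w : Fin n} (W : Finset (Fin n))
    (prop : Finset (Finset (Fin n)) → Prop) [DecidablePred prop]
    (hprop : ∀ H, prop H → prop (H \ (inc E v (insert w W) ∪ inc E w (insert v W)))) :
    (E.powerset.filter (fun H => deg H v = deg H w ∧ prop H)).card ≤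
      mid ((inc E v (insert w W) ∪ inc E w (insert v W)).card) *
        ((E \ (inc E v (insert w W) ∪ inc E w (insert v W))).powerset.filter prop).card := by
  set P := inc E v (insert w W) with hP
  set Q := inc E w (insert v W) with hQ
  have hPw : ∀ e ∈ P, w ∉ e := by
    intro e he
    rw [hP, mem_inc] at he
    intro hw
    exact disjoint_left.mp he.2.2 hw (mem_insert_self _ _)
  have hQv : ∀ e ∈ Q, v ∉ e := by
    intro e he
    rw [hQ, mem_inc] at he
    intro hv
    exact disjoint_left.mp he.2.2 hv (mem_insert_self _ _)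
  have hd : Disjoint P Q := by
    rw [disjoint_left]
    intro e he he'
    rw [hP, mem_inc] at he
    exact hQv e he' he.2.1
  refine le_trans ?_ (fiber_le E P Q hd
    (fun H' => (deg H' w : ℤ) - (deg H' v : ℤ)) prop)
  apply card_le_card
  intro H hH
  rw [mem_filter, mem_powerset] at hH ⊢
  obtain ⟨h1, h2, h3⟩ := hH
  refine ⟨h1, ?_, hprop H h3⟩
  have e1 := deg_split h1 v (insert w W) Q hQv
  have e2 := deg_split h1 w (insert v W) P hPw
  rw [← hP] at e1
  rw [← hQ, union_comm] at e2
  omega

/-- One sided version. -/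
lemma single_fiber (E : Finset (Finset (Fin n))) {x v : Fin n} (Z : Finset (Fin n)) (hvZ : v ∈ Z)
    (prop : Finset (Finset (Fin n)) → Prop) [DecidablePred prop]
    (hprop : ∀ H, prop H → prop (H \ inc E x Z)) :
    (E.powerset.filter (fun H => deg H x = deg H v ∧ prop H)).card ≤
      mid ((inc E x Z).card) * ((E \ inc E x Z).powerset.filter prop).card := by
  set P := inc E x Z with hP
  have hPv : ∀ e ∈ P, v ∉ e := by
    intro e he
    rw [hP, mem_inc] at he
    intro hv
    exact disjoint_left.mp he.2.2 hv hvZ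
  have h0 := fiber_le E P ∅ (disjoint_empty_right _)
    (fun H' => (deg H' v : ℤ) - (deg H' x : ℤ)) prop
  rw [union_empty] at h0
  refine le_trans ?_ h0
  apply card_le_card
  intro H hH
  rw [mem_filter, mem_powerset] at hH ⊢
  obtain ⟨h1, h2, h3⟩ := hH
  refine ⟨h1, ?_, hprop H h3⟩
  have e1 := deg_split h1 x Z ∅ (by simp)
  rw [← hP, union_empty] at e1
  have e2 := deg_sdiff (H := H) hPv
  simp only [inter_empty, card_empty, Nat.cast_zero, sub_zero]
  rw [e2]
  omega

lemma inc_disj {E : Finset (Finset (Fin n))} {v w : Fin n} {Z Z' : Finset (Fin n)}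
    (h : w ∈ Z) : Disjoint (inc E v Z) (inc E w Z') := by
  rw [disjoint_left]
  intro e he he'
  rw [mem_inc] at he he'
  exact disjoint_left.mp he.2.2 he'.2.1 h

/-- Exact lower bound for the number of hypergraphs in which `v` and `w` have equal degrees. -/
lemma eq_count_ge {k : ℕ} (hk : 1 ≤ k) {v w : Fin n} (hvw : v ≠ w) :
    ((n - 2).choose (k - 1)).centralBinom *
      2 ^ ((full n k).card - 2 * (n - 2).choose (k - 1)) ≤
      ((full n k).powerset.filter (fun H => deg H v = deg H w)).card := by
  set E := full n k with hE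
  set P := inc E v {w} with hP
  set Q := inc E w {v} with hQ
  have hPc : P.card = (n - 2).choose (k - 1) := by
    rw [hP, hE, card_inc hk (by simpa using hvw), card_singleton]
    rfl
  have hQc : Q.card = (n - 2).choose (k - 1) := by
    rw [hQ, hE, card_inc hk (by simpa using hvw.symm), card_singleton]
    rfl
  refine le_trans (balanced_ge E P Q (filter_subset _ _) (filter_subset _ _)
    (inc_disj (by simp)) _ hPc hQc) ?_
  apply card_le_card
  intro H hH
  rw [mem_filter, mem_powerset] at hH ⊢
  refine ⟨hH.1, ?_⟩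
  have hPw : ∀ e ∈ P, w ∉ e := by
    intro e he
    rw [hP, mem_inc] at he
    intro hw
    exact disjoint_left.mp he.2.2 hw (mem_singleton_self _)
  have hQv : ∀ e ∈ Q, v ∉ e := by
    intro e he
    rw [hQ, mem_inc] at he
    intro hv
    exact disjoint_left.mp he.2.2 hv (mem_singleton_self _)
  have e1 := deg_split hH.1 v {w} Q hQv
  have e2 := deg_split hH.1 w {v} P hPw
  rw [← hP] at e1
  rw [← hQ, union_comm] at e2
  have e3 : deg (H \ (P ∪ Q)) v = deg (H \ (P ∪ Q)) w := by
    unfold deg
    congr 1
    ext e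
    simp only [mem_filter, mem_sdiff, mem_union, hP, hQ, mem_inc, disjoint_singleton_right]
    constructor
    · rintro ⟨⟨h1, h2⟩, h3⟩
      refine ⟨⟨h1, h2⟩, ?_⟩
      by_contra h4
      exact h2 (Or.inl ⟨hH.1 h1, h3, h4⟩)
    · rintro ⟨⟨h1, h2⟩, h3⟩
      refine ⟨⟨h1, h2⟩, ?_⟩
      by_contra h4
      exact h2 (Or.inr ⟨hH.1 h1, h3, h4⟩)
  rw [e1, e2, e3, hH.2]

lemma eq_count_le {k : ℕ} (hk : 1 ≤ k) {v w : Fin n} (hvw : v ≠ w) :
    ((full n k).powerset.filter (fun H => deg H v = deg H w)).card ≤
      ((n - 2).choose (k - 1)).centralBinom *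
      2 ^ ((full n k).card - 2 * (n - 2).choose (k - 1)) := by
  have h := pair_fiber (full n k) (v := v) (w := w) ∅ (fun _ => True) (fun _ _ => trivial)
  simp only [and_true, filter_true] at h
  refine h.trans (le_of_eq ?_)
  have hc : (inc (full n k) v (insert w ∅) ∪ inc (full n k) w (insert v ∅)).card =
      2 * (n - 2).choose (k - 1) := by
    rw [card_union_of_disjoint (inc_disj (by simp)), card_inc hk (by simpa using hvw),
      card_inc hk (by simpa using hvw.symm)]
    simp only [insert_empty_eq, card_singleton]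
    have : n - 1 - 1 = n - 2 := by omega
    rw [this]
    ring
  have hsub : inc (full n k) v (insert w ∅) ∪ inc (full n k) w (insert v ∅) ⊆ full n k :=
    union_subset (filter_subset _ _) (filter_subset _ _)
  rw [hc, mid_two_mul, card_powerset, card_sdiff_of_subset hsub, hc]

/-- Two disjoint pairs. -/
lemma eq2_count_le {k : ℕ} (hk : 1 ≤ k) {v w x y : Fin n} (hvw : v ≠ w) (hxy : x ≠ y)
    (hvx : v ≠ x) (hvy : v ≠ y) (hwx : w ≠ x) (hwy : w ≠ y) :
    ((full n k).powerset.filter (fun H => deg H v = deg H w ∧ deg H x = deg H y)).card ≤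
      ((n - 4).choose (k - 1)).centralBinom * (((n - 4).choose (k - 1)).centralBinom *
      2 ^ ((full n k).card - 4 * (n - 4).choose (k - 1))) := by
  set E := full n k with hE
  set m := (n - 4).choose (k - 1) with hm
  set R := inc E v (insert w {x, y}) ∪ inc E w (insert v {x, y}) with hR
  have hRx : ∀ e ∈ R, x ∉ e := by
    intro e he hx
    rw [hR, mem_union, mem_inc, mem_inc] at he
    rcases he with he | he
    · exact disjoint_left.mp he.2.2 hx (by simp)
    · exact disjoint_left.mp he.2.2 hx (by simp)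
  have hRy : ∀ e ∈ R, y ∉ e := by
    intro e he hx
    rw [hR, mem_union, mem_inc, mem_inc] at he
    rcases he with he | he
    · exact disjoint_left.mp he.2.2 hx (by simp)
    · exact disjoint_left.mp he.2.2 hx (by simp)
  have h := pair_fiber E (v := v) (w := w) {x, y} (fun H => deg H x = deg H y) (by
    intro H hH
    rw [← hR, deg_sdiff hRx, deg_sdiff hRy]
    exact hH)
  rw [← hR] at h
  have hc3 : ∀ a b c d : Fin n, b ≠ c → b ≠ d → c ≠ d → (insert b {c, d} : Finset (Fin n)).card = 3 := by
    intro a b c d h1 h2 h3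
    rw [card_insert_of_notMem (by simp [h1, h2]), card_pair h3]
  have hRc : R.card = 2 * m := by
    rw [hR, card_union_of_disjoint (inc_disj (by simp)), hE,
      card_inc hk (by simp [hvw, hvx, hvy]), card_inc hk (by simp [hvw.symm, hwx, hwy]),
      hc3 v w x y hwx hwy hxy, hc3 v v x y hvx hvy hxy]
    have : n - 1 - 3 = n - 4 := by omega
    rw [this, ← hm]
    ring
  rw [hRc, mid_two_mul] at h
  refine h.trans (Nat.mul_le_mul_left _ ?_)
  have h' := pair_fiber (E \ R) (v := x) (w := y) {v, w} (fun _ => True) (fun _ _ => trivial)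
  simp only [and_true, filter_true] at h'
  refine h'.trans (le_of_eq ?_)
  have hi1 : inc (E \ R) x (insert y {v, w}) = inc E x (insert y {v, w}) := by
    ext e
    simp only [mem_inc, mem_sdiff]
    constructor
    · rintro ⟨⟨h1, -⟩, h2⟩
      exact ⟨h1, h2⟩
    · rintro ⟨h1, h2⟩
      exact ⟨⟨h1, fun h3 => hRx e h3 h2.1⟩, h2⟩
  have hi2 : inc (E \ R) y (insert x {v, w}) = inc E y (insert x {v, w}) := by
    ext e
    simp only [mem_inc, mem_sdiff]
    constructor
    · rintro ⟨⟨h1, -⟩, h2⟩
      exact ⟨h1, h2⟩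
    · rintro ⟨h1, h2⟩
      exact ⟨⟨h1, fun h3 => hRy e h3 h2.1⟩, h2⟩
  rw [hi1, hi2]
  have hc : (inc E x (insert y {v, w}) ∪ inc E y (insert x {v, w})).card = 2 * m := by
    rw [card_union_of_disjoint (inc_disj (by simp)), hE,
      card_inc hk (by simp [hxy, hvx.symm, hwx.symm]), card_inc hk (by
        simp [hxy.symm, hvy.symm, hwy.symm]),
      hc3 v y v w hvy.symm hwy.symm hvw, hc3 v x v w hvx.symm hwx.symm hvw]
    have : n - 1 - 3 = n - 4 := by omega
    rw [this, ← hm]
    ring
  rw [hc, mid_two_mul, card_powerset, card_sdiff_of_subset, hc, card_sdiff_of_subset, hRc]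
  · congr 2
    omega
  · exact union_subset (filter_subset _ _) (filter_subset _ _)
  · intro e he
    rw [mem_sdiff]
    rw [mem_union, mem_inc, mem_inc] at he
    rcases he with he | he
    · exact ⟨he.1, fun h3 => hRx e h3 he.2.1⟩
    · exact ⟨he.1, fun h3 => hRy e h3 he.2.1⟩

/-- Three vertices. -/
lemma eq3_count_le {k : ℕ} (hk : 1 ≤ k) {v w x : Fin n} (hvw : v ≠ w) (hvx : v ≠ x)
    (hwx : w ≠ x) :
    ((full n k).powerset.filter (fun H => deg H x = deg H v ∧ deg H v = deg H w)).card ≤
      mid ((n - 3).choose (k - 1)) * (((n - 3).choose (k - 1)).centralBinom *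
      2 ^ ((full n k).card - 3 * (n - 3).choose (k - 1))) := by
  set E := full n k with hE
  set m := (n - 3).choose (k - 1) with hm
  set R := inc E x {v, w} with hR
  have hRv : ∀ e ∈ R, v ∉ e := by
    intro e he hx
    rw [hR, mem_inc] at he
    exact disjoint_left.mp he.2.2 hx (by simp)
  have hRw : ∀ e ∈ R, w ∉ e := by
    intro e he hx
    rw [hR, mem_inc] at he
    exact disjoint_left.mp he.2.2 hx (by simp)
  have h := single_fiber E (x := x) (v := v) {v, w} (by simp) (fun H => deg H v = deg H w) (by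
    intro H hH
    rw [← hR, deg_sdiff hRv, deg_sdiff hRw]
    exact hH)
  rw [← hR] at h
  have hRc : R.card = m := by
    rw [hR, hE, card_inc hk (by simp [hvx.symm, hwx.symm]), card_pair hvw]
    have : n - 1 - 2 = n - 3 := by omega
    rw [this]
  rw [hRc] at h
  refine h.trans (Nat.mul_le_mul_left _ ?_)
  have h' := pair_fiber (E \ R) (v := v) (w := w) {x} (fun _ => True) (fun _ _ => trivial)
  simp only [and_true, filter_true] at h'
  refine h'.trans (le_of_eq ?_)
  have hi1 : inc (E \ R) v (insert w {x}) = inc E v (insert w {x}) := by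
    ext e
    simp only [mem_inc, mem_sdiff]
    constructor
    · rintro ⟨⟨h1, -⟩, h2⟩
      exact ⟨h1, h2⟩
    · rintro ⟨h1, h2⟩
      exact ⟨⟨h1, fun h3 => hRv e h3 h2.1⟩, h2⟩
  have hi2 : inc (E \ R) w (insert v {x}) = inc E w (insert v {x}) := by
    ext e
    simp only [mem_inc, mem_sdiff]
    constructor
    · rintro ⟨⟨h1, -⟩, h2⟩
      exact ⟨h1, h2⟩
    · rintro ⟨h1, h2⟩
      exact ⟨⟨h1, fun h3 => hRw e h3 h2.1⟩, h2⟩
  rw [hi1, hi2]
  have hc : (inc E v (insert w {x}) ∪ inc E w (insert v {x})).card = 2 * m := by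
    rw [card_union_of_disjoint (inc_disj (by simp)), hE,
      card_inc hk (by simp [hvw, hvx]), card_inc hk (by simp [hvw.symm, hwx]),
      card_pair hwx, card_pair hvx]
    have : n - 1 - 2 = n - 3 := by omega
    rw [this, ← hm]
    ring
  rw [hc, mid_two_mul, card_powerset, card_sdiff_of_subset, hc, card_sdiff_of_subset, hRc]
  · congr 2
    omega
  · exact filter_subset _ _
  · intro e he
    rw [mem_sdiff]
    rw [mem_union, mem_inc, mem_inc] at he
    rcases he with he | he
    · exact ⟨he.1, fun h3 => hRv e h3 he.2.1⟩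
    · exact ⟨he.1, fun h3 => hRw e h3 he.2.1⟩

end Pool.Agent.V11143.Deg
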