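import Pool.Agent.V11143.Deg2

/-!
# Second moment of the number of pairs of vertices of equal degree
-/

set_option autoImplicit false

namespace Pool.Agent.V11143.Deg

open Finset

lemma cheb {α : Type*} (S : Finset α) (X : α → ℝ) :
    ((S.filter (fun H => X H = 0)).card : ℝ) * (∑ H ∈ S, X H) ^ 2 ≤
      S.card * (S.card * (∑ H ∈ S, X H ^ 2) - (∑ H ∈ S, X H) ^ 2) := by
  classical
  have h1 : ∑ H ∈ S, ((S.card : ℝ) * X H - ∑ H ∈ S, X H) ^ 2 =
      S.card * (S.card * (∑ H ∈ S, X H ^ 2) - (∑ H ∈ S, X H) ^ 2) := by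
    have : ∀ H ∈ S, ((S.card : ℝ) * X H - ∑ H ∈ S, X H) ^ 2 =
        (S.card : ℝ) ^ 2 * X H ^ 2 - 2 * S.card * (∑ H ∈ S, X H) * X H + (∑ H ∈ S, X H) ^ 2 := by
      intro H _
      ring
    rw [sum_congr rfl this, sum_add_distrib, sum_sub_distrib, ← mul_sum, ← mul_sum, sum_const,
      nsmul_eq_mul]
    ring
  rw [← h1]
  calc ((S.filter (fun H => X H = 0)).card : ℝ) * (∑ H ∈ S, X H) ^ 2
      = ∑ H ∈ S.filter (fun H => X H = 0), ((S.card : ℝ) * X H - ∑ H ∈ S, X H) ^ 2 := by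
        have hc : ∀ H ∈ S.filter (fun H => X H = 0),
            ((S.card : ℝ) * X H - ∑ H ∈ S, X H) ^ 2 = (∑ H ∈ S, X H) ^ 2 := by
          intro H hH
          rw [mem_filter] at hH
          rw [hH.2]
          ring
        rw [sum_congr rfl hc, sum_const, nsmul_eq_mul]
    _ ≤ _ := sum_le_sum_of_subset_of_nonneg (filter_subset _ _) (fun _ _ _ => sq_nonneg _)

variable {n : ℕ}

/-- Indicator. -/
noncomputable def ind (H : Finset (Finset (Fin n))) (π : Fin n × Fin n) : ℝ :=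
  if deg H π.1 = deg H π.2 then 1 else 0

/-- Number of equal ordered pairs. -/
noncomputable def X (H : Finset (Finset (Fin n))) : ℝ :=
  ∑ π ∈ (univ : Finset (Fin n)).offDiag, ind H π

lemma real_cb {m N : ℕ} (h : 2 * m ≤ N) :
    ((m.centralBinom : ℝ)) * 2 ^ (N - 2 * m) = p2 m * 2 ^ N := by
  unfold p2
  have h4 : (4 : ℝ) ^ m = 2 ^ (2 * m) := by
    rw [pow_mul]
    norm_num
  have : (2 : ℝ) ^ N = 2 ^ (N - 2 * m) * 2 ^ (2 * m) := by
    rw [← pow_add]
    congr 1
    omega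
  rw [h4, this]
  field_simp

lemma card_full (n k : ℕ) : (full n k).card = n.choose k := by
  unfold full
  rw [card_powersetCard, card_univ, Fintype.card_fin]

lemma four_le (t j : ℕ) : 4 * t.choose j ≤ (t + 4).choose (j + 1) := by
  have h1 := Nat.choose_succ_succ (t + 3) j
  have h2 := Nat.choose_succ_succ (t + 2) j
  have h3 := Nat.choose_succ_succ (t + 1) j
  have h4 := Nat.choose_succ_succ t j
  have h5 : t.choose j ≤ (t + 3).choose j := Nat.choose_le_choose _ (by omega)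
  have h6 : t.choose j ≤ (t + 2).choose j := Nat.choose_le_choose _ (by omega)
  have h7 : t.choose j ≤ (t + 1).choose j := Nat.choose_le_choose _ (by omega)
  simp only [Nat.succ_eq_add_one] at *
  have e1 : t + 3 + 1 = t + 4 := by ring
  have e2 : t + 2 + 1 = t + 3 := by ring
  have e3 : t + 1 + 1 = t + 2 := by ring
  rw [e1] at h1
  rw [e2] at h2
  rw [e3] at h3
  omega

lemma three_le (t j : ℕ) : 3 * t.choose j ≤ (t + 3).choose (j + 1) := by
  have h2 := Nat.choose_succ_succ (t + 2) j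
  have h3 := Nat.choose_succ_succ (t + 1) j
  have h4 := Nat.choose_succ_succ t j
  have h6 : t.choose j ≤ (t + 2).choose j := Nat.choose_le_choose _ (by omega)
  have h7 : t.choose j ≤ (t + 1).choose j := Nat.choose_le_choose _ (by omega)
  simp only [Nat.succ_eq_add_one] at *
  have e2 : t + 2 + 1 = t + 3 := by ring
  have e3 : t + 1 + 1 = t + 2 := by ring
  rw [e2] at h2
  rw [e3] at h3
  omega

lemma two_le (t j : ℕ) : 2 * t.choose j ≤ (t + 2).choose (j + 1) := by
  have h3 := Nat.choose_succ_succ (t + 1) j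
  have h4 := Nat.choose_succ_succ t j
  have h7 : t.choose j ≤ (t + 1).choose j := Nat.choose_le_choose _ (by omega)
  simp only [Nat.succ_eq_add_one] at *
  have e3 : t + 1 + 1 = t + 2 := by ring
  rw [e3] at h3
  omega

/-- The three probabilities. -/
lemma eq_prob {k : ℕ} (hk : 1 ≤ k) (hn : 4 ≤ n) {π : Fin n × Fin n}
    (hπ : π ∈ (univ : Finset (Fin n)).offDiag) :
    ∑ H ∈ (full n k).powerset, ind H π = p2 ((n - 2).choose (k - 1)) * 2 ^ (n.choose k) := by
  rw [mem_offDiag] at hπ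
  unfold ind
  rw [← sum_filter, sum_const, nsmul_eq_mul, mul_one]
  have h1 := eq_count_le (n := n) hk hπ.2.2
  have h2 := eq_count_ge (n := n) hk hπ.2.2
  have h3 := le_antisymm h1 h2
  rw [h3, card_full]
  push_cast
  apply real_cb
  obtain ⟨t, rfl⟩ : ∃ t, n = t + 2 := ⟨n - 2, by omega⟩
  obtain ⟨j, rfl⟩ : ∃ j, k = j + 1 := ⟨k - 1, by omega⟩
  exact two_le t j

lemma ind_mul (H : Finset (Finset (Fin n))) (π ρ : Fin n × Fin n) :
    ind H π * ind H ρ = if deg H π.1 = deg H π.2 ∧ deg H ρ.1 = deg H ρ.2 then 1 else 0 := by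
  unfold ind
  split_ifs <;> simp_all

lemma ind_nonneg (H : Finset (Finset (Fin n))) (π : Fin n × Fin n) : 0 ≤ ind H π := by
  unfold ind
  split_ifs <;> norm_num

lemma ind_le (H : Finset (Finset (Fin n))) (π : Fin n × Fin n) : ind H π ≤ 1 := by
  unfold ind
  split_ifs <;> norm_num

lemma disj_prob {k : ℕ} (hk : 1 ≤ k) (hn : 4 ≤ n) {π ρ : Fin n × Fin n}
    (hπ : π.1 ≠ π.2) (hρ : ρ.1 ≠ ρ.2) (h11 : π.1 ≠ ρ.1) (h12 : π.1 ≠ ρ.2) (h21 : π.2 ≠ ρ.1)
    (h22 : π.2 ≠ ρ.2) :
    ∑ H ∈ (full n k).powerset, ind H π * ind H ρ ≤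
      p2 ((n - 4).choose (k - 1)) ^ 2 * 2 ^ (n.choose k) := by
  simp only [ind_mul]
  rw [← sum_filter, sum_const, nsmul_eq_mul, mul_one]
  have h1 := eq2_count_le (n := n) hk hπ hρ h11 h12 h21 h22
  have h2 : (((full n k).powerset.filter
      (fun H => deg H π.1 = deg H π.2 ∧ deg H ρ.1 = deg H ρ.2)).card : ℝ) ≤
      ((n - 4).choose (k - 1)).centralBinom * (((n - 4).choose (k - 1)).centralBinom *
      2 ^ ((full n k).card - 4 * (n - 4).choose (k - 1))) := by
    exact_mod_cast h1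
  refine h2.trans (le_of_eq ?_)
  obtain ⟨t, rfl⟩ : ∃ t, n = t + 4 := ⟨n - 4, by omega⟩
  obtain ⟨j, rfl⟩ : ∃ j, k = j + 1 := ⟨k - 1, by omega⟩
  have h3 := four_le t j
  rw [card_full]
  simp only [Nat.add_sub_cancel]
  set m := t.choose j
  set N := (t + 4).choose (j + 1)
  have h4 : N - 4 * m = (N - 2 * m) - 2 * m := by omega
  rw [h4, real_cb (by omega), mul_left_comm, real_cb (by omega)]
  ring

lemma triple_prob {k : ℕ} (hk : 1 ≤ k) (hn : 4 ≤ n) {v w x : Fin n} (hvw : v ≠ w) (hvx : v ≠ x)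
    (hwx : w ≠ x) :
    (((full n k).powerset.filter (fun H => deg H x = deg H v ∧ deg H v = deg H w)).card : ℝ) ≤
      p1 ((n - 3).choose (k - 1)) * p2 ((n - 3).choose (k - 1)) * 2 ^ (n.choose k) := by
  have h1 := eq3_count_le (n := n) (k := k) hk hvw hvx hwx
  have h2 : (((full n k).powerset.filter
      (fun H => deg H x = deg H v ∧ deg H v = deg H w)).card : ℝ) ≤
      mid ((n - 3).choose (k - 1)) * (((n - 3).choose (k - 1)).centralBinom *
      2 ^ ((full n k).card - 3 * (n - 3).choose (k - 1))) := by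
    exact_mod_cast h1
  refine h2.trans (le_of_eq ?_)
  obtain ⟨t, rfl⟩ : ∃ t, n = t + 3 := ⟨n - 3, by omega⟩
  obtain ⟨j, rfl⟩ : ∃ j, k = j + 1 := ⟨k - 1, by omega⟩
  have h3 := three_le t j
  rw [card_full]
  simp only [Nat.add_sub_cancel]
  set m := t.choose j
  set N := (t + 3).choose (j + 1)
  have h4 : N - 3 * m = (N - m) - 2 * m := by omega
  rw [h4, real_cb (by omega)]
  unfold p1
  have : (2 : ℝ) ^ N = 2 ^ (N - m) * 2 ^ m := by
    rw [← pow_add]
    congr 1
    omega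
  rw [this]
  field_simp

/-- Pairs sharing a vertex, not equal as unordered pairs. -/
lemma share_prob {k : ℕ} (hk : 1 ≤ k) (hn : 4 ≤ n) {π ρ : Fin n × Fin n}
    (hπ : π.1 ≠ π.2) (hρ : ρ.1 ≠ ρ.2) (hne : ρ ≠ π) (hne' : ρ ≠ π.swap)
    (hs : ρ.1 = π.1 ∨ ρ.1 = π.2 ∨ ρ.2 = π.1 ∨ ρ.2 = π.2) :
    ∑ H ∈ (full n k).powerset, ind H π * ind H ρ ≤
      p1 ((n - 3).choose (k - 1)) * p2 ((n - 3).choose (k - 1)) * 2 ^ (n.choose k) := by
  simp only [ind_mul]
  rw [← sum_filter, sum_const, nsmul_eq_mul, mul_one]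
  obtain ⟨v, w⟩ := π
  obtain ⟨x, y⟩ := ρ
  simp only [ne_eq, Prod.mk.injEq, Prod.swap_prod_mk, not_and] at hπ hρ hne hne' hs ⊢
  rcases hs with rfl | rfl | rfl | rfl
  · -- x = v, pair (x,w), (x,y)
    have hwy : w ≠ y := fun h => hne rfl h.symm
    refine le_trans ?_ (triple_prob (n := n) (k := k) hk hn (v := x) (w := w) (x := y) hπ hρ hwy)
    apply Nat.cast_le.mpr
    apply card_le_card
    intro H hH
    rw [mem_filter] at hH ⊢
    exact ⟨hH.1, hH.2.2.symm, hH.2.1⟩
  · -- x = w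
    have hvy : v ≠ y := fun h => hne' rfl h.symm
    refine le_trans ?_ (triple_prob (n := n) (k := k) hk hn (v := x) (w := v) (x := y)
      (Ne.symm hπ) hρ hvy)
    apply Nat.cast_le.mpr
    apply card_le_card
    intro H hH
    rw [mem_filter] at hH ⊢
    exact ⟨hH.1, hH.2.2.symm, hH.2.1.symm⟩
  · -- y = v
    have hxw : w ≠ x := fun h => hne' h.symm rfl
    refine le_trans ?_ (triple_prob (n := n) (k := k) hk hn (v := y) (w := w) (x := x)
      hπ (Ne.symm hρ) hxw)
    apply Nat.cast_le.mpr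
    apply card_le_card
    intro H hH
    rw [mem_filter] at hH ⊢
    exact ⟨hH.1, hH.2.2, hH.2.1⟩
  · -- y = w
    have hxv : v ≠ x := fun h => hne h.symm rfl
    refine le_trans ?_ (triple_prob (n := n) (k := k) hk hn (v := y) (w := v) (x := x)
      (Ne.symm hπ) (Ne.symm hρ) hxv)
    apply Nat.cast_le.mpr
    apply card_le_card
    intro H hH
    rw [mem_filter] at hH ⊢
    exact ⟨hH.1, hH.2.2, hH.2.1.symm⟩

/-- Second moment bound for a fixed pair. -/
lemma inner_bound {k : ℕ} (hk : 1 ≤ k) (hn : 4 ≤ n) {π : Fin n × Fin n}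
    (hπ : π ∈ (univ : Finset (Fin n)).offDiag) :
    ∑ ρ ∈ (univ : Finset (Fin n)).offDiag, ∑ H ∈ (full n k).powerset, ind H π * ind H ρ ≤
      (2 * p2 ((n - 2).choose (k - 1)) +
        4 * n * (p1 ((n - 3).choose (k - 1)) * p2 ((n - 3).choose (k - 1))) +
        (univ : Finset (Fin n)).offDiag.card * p2 ((n - 4).choose (k - 1)) ^ 2) *
        2 ^ (n.choose k) := by
  set a := p2 ((n - 2).choose (k - 1)) * 2 ^ (n.choose k) with ha
  set b := p1 ((n - 3).choose (k - 1)) * p2 ((n - 3).choose (k - 1)) * 2 ^ (n.choose k) with hb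
  set c := p2 ((n - 4).choose (k - 1)) ^ 2 * 2 ^ (n.choose k) with hc
  have ha0 : 0 ≤ a := mul_nonneg (p2_pos _).le (by positivity)
  have hb0 : 0 ≤ b := mul_nonneg (mul_nonneg (p1_nonneg _) (p2_pos _).le) (by positivity)
  have hc0 : 0 ≤ c := mul_nonneg (sq_nonneg _) (by positivity)
  have hπ' := hπ
  rw [mem_offDiag] at hπ'
  have key : ∀ ρ ∈ (univ : Finset (Fin n)).offDiag,
      ∑ H ∈ (full n k).powerset, ind H π * ind H ρ ≤
      (if ρ = π ∨ ρ = π.swap then a else 0) +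
      (if ρ.1 = π.1 ∨ ρ.1 = π.2 ∨ ρ.2 = π.1 ∨ ρ.2 = π.2 then b else 0) + c := by
    intro ρ hρ
    rw [mem_offDiag] at hρ
    by_cases h1 : ρ = π ∨ ρ = π.swap
    · rw [if_pos h1]
      have h2 : ∑ H ∈ (full n k).powerset, ind H π * ind H ρ ≤ a := by
        rw [ha, ← eq_prob hk hn hπ]
        apply sum_le_sum
        intro H _
        have := ind_le H ρ
        have := ind_nonneg H π
        nlinarith
      split_ifs <;> linarith
    · rw [if_neg h1]
      push Not at h1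
      by_cases h2 : ρ.1 = π.1 ∨ ρ.1 = π.2 ∨ ρ.2 = π.1 ∨ ρ.2 = π.2
      · rw [if_pos h2]
        have := share_prob (k := k) hk hn hπ'.2.2 hρ.2.2 h1.1 h1.2 h2
        linarith
      · rw [if_neg h2]
        push Not at h2
        have := disj_prob (k := k) hk hn hπ'.2.2 hρ.2.2 (Ne.symm h2.1) (Ne.symm h2.2.2.1)
          (Ne.symm h2.2.1) (Ne.symm h2.2.2.2)
        linarith
  refine (sum_le_sum key).trans ?_
  rw [sum_add_distrib, sum_add_distrib, ← sum_filter, ← sum_filter, sum_const, sum_const, sum_const,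
    nsmul_eq_mul, nsmul_eq_mul, nsmul_eq_mul]
  have c1 : (((univ : Finset (Fin n)).offDiag.filter (fun ρ => ρ = π ∨ ρ = π.swap)).card : ℝ) ≤ 2 := by
    have : ((univ : Finset (Fin n)).offDiag.filter (fun ρ => ρ = π ∨ ρ = π.swap)) ⊆
        {π, π.swap} := by
      intro ρ hρ
      rw [mem_filter] at hρ
      simpa using hρ.2
    have h2 := (card_le_card this).trans card_le_two
    exact_mod_cast h2
  have c2 : (((univ : Finset (Fin n)).offDiag.filter
      (fun ρ => ρ.1 = π.1 ∨ ρ.1 = π.2 ∨ ρ.2 = π.1 ∨ ρ.2 = π.2)).card : ℝ) ≤ 4 * n := by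
    have hsub : ((univ : Finset (Fin n)).offDiag.filter
      (fun ρ => ρ.1 = π.1 ∨ ρ.1 = π.2 ∨ ρ.2 = π.1 ∨ ρ.2 = π.2)) ⊆
        ((({π.1} : Finset (Fin n)) ×ˢ (univ : Finset (Fin n))) ∪
         (({π.2} : Finset (Fin n)) ×ˢ (univ : Finset (Fin n)))) ∪
        (((univ : Finset (Fin n)) ×ˢ ({π.1} : Finset (Fin n))) ∪
         ((univ : Finset (Fin n)) ×ˢ ({π.2} : Finset (Fin n)))) := by
      intro ρ hρ
      rw [mem_filter] at hρ
      simp only [mem_union, mem_product, mem_singleton, mem_univ, and_true, true_and]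
      tauto
    have h2 := card_le_card hsub
    have h3 := card_union_le
      ((({π.1} : Finset (Fin n)) ×ˢ (univ : Finset (Fin n))) ∪
         (({π.2} : Finset (Fin n)) ×ˢ (univ : Finset (Fin n))))
      (((univ : Finset (Fin n)) ×ˢ ({π.1} : Finset (Fin n))) ∪
         ((univ : Finset (Fin n)) ×ˢ ({π.2} : Finset (Fin n))))
    have h4 := card_union_le (({π.1} : Finset (Fin n)) ×ˢ (univ : Finset (Fin n)))
      (({π.2} : Finset (Fin n)) ×ˢ (univ : Finset (Fin n)))
    have h5 := card_union_le ((univ : Finset (Fin n)) ×ˢ ({π.1} : Finset (Fin n)))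
      ((univ : Finset (Fin n)) ×ˢ ({π.2} : Finset (Fin n)))
    simp only [card_product, card_singleton, card_univ, Fintype.card_fin] at h4 h5
    have h6 : ((univ : Finset (Fin n)).offDiag.filter
      (fun ρ => ρ.1 = π.1 ∨ ρ.1 = π.2 ∨ ρ.2 = π.1 ∨ ρ.2 = π.2)).card ≤ 4 * n := by
      omega
    exact_mod_cast h6
  have d1 := mul_le_mul_of_nonneg_right c1 ha0
  have d2 := mul_le_mul_of_nonneg_right c2 hb0
  have : (2 * p2 ((n - 2).choose (k - 1)) +
        4 * n * (p1 ((n - 3).choose (k - 1)) * p2 ((n - 3).choose (k - 1))) +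
        (univ : Finset (Fin n)).offDiag.card * p2 ((n - 4).choose (k - 1)) ^ 2) *
        2 ^ (n.choose k) = 2 * a + 4 * n * b + (univ : Finset (Fin n)).offDiag.card * c := by
    rw [ha, hb, hc]
    ring
  rw [this]
  linarith

lemma X_eq_zero {H : Finset (Finset (Fin n))} :
    X H = 0 ↔ ¬ ∃ v w : Fin n, v ≠ w ∧ deg H v = deg H w := by
  unfold X
  rw [sum_eq_zero_iff_of_nonneg (fun _ _ => ind_nonneg _ _)]
  constructor
  · rintro h ⟨v, w, h1, h2⟩
    have := h (v, w) (by rw [mem_offDiag]; exact ⟨mem_univ _, mem_univ _, h1⟩)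
    unfold ind at this
    simp [h2] at this
  · intro h π hπ
    rw [mem_offDiag] at hπ
    unfold ind
    rw [if_neg]
    intro h2
    exact h ⟨π.1, π.2, hπ.2.2, h2⟩

lemma main_bound {k : ℕ} (hk : 1 ≤ k) (hn : 4 ≤ n) :
    (((full n k).powerset.filter (fun H => ¬ ∃ v w : Fin n, v ≠ w ∧ deg H v = deg H w)).card : ℝ) *
      (((univ : Finset (Fin n)).offDiag.card : ℝ) * p2 ((n - 2).choose (k - 1))) ^ 2 ≤
      2 ^ (n.choose k) * (((univ : Finset (Fin n)).offDiag.card : ℝ) *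
      (2 * p2 ((n - 2).choose (k - 1)) +
        4 * n * (p1 ((n - 3).choose (k - 1)) * p2 ((n - 3).choose (k - 1))) +
        (univ : Finset (Fin n)).offDiag.card * p2 ((n - 4).choose (k - 1)) ^ 2) -
      (((univ : Finset (Fin n)).offDiag.card : ℝ) * p2 ((n - 2).choose (k - 1))) ^ 2) := by
  have h := cheb ((full n k).powerset) (fun H => X H)
  set P := ((univ : Finset (Fin n)).offDiag.card : ℝ) with hP
  have hP0 : 0 ≤ P := Nat.cast_nonneg _
  have e1 : (full n k).powerset.filter (fun H => X H = 0) =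
      (full n k).powerset.filter (fun H => ¬ ∃ v w : Fin n, v ≠ w ∧ deg H v = deg H w) := by
    apply filter_congr
    intro H _
    exact X_eq_zero
  have e2 : ∑ H ∈ (full n k).powerset, X H =
      P * (p2 ((n - 2).choose (k - 1)) * 2 ^ (n.choose k)) := by
    unfold X
    rw [sum_comm, sum_congr rfl (fun π hπ => eq_prob hk hn hπ), sum_const, nsmul_eq_mul]
  have e3 : ((full n k).powerset.card : ℝ) = 2 ^ (n.choose k) := by
    rw [card_powerset, card_full]
    push_cast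
    rfl
  have e4 : ∑ H ∈ (full n k).powerset, X H ^ 2 ≤ P * ((2 * p2 ((n - 2).choose (k - 1)) +
        4 * n * (p1 ((n - 3).choose (k - 1)) * p2 ((n - 3).choose (k - 1))) +
        P * p2 ((n - 4).choose (k - 1)) ^ 2) * 2 ^ (n.choose k)) := by
    have : ∀ H ∈ (full n k).powerset, X H ^ 2 = ∑ π ∈ (univ : Finset (Fin n)).offDiag,
        ∑ ρ ∈ (univ : Finset (Fin n)).offDiag, ind H π * ind H ρ := by
      intro H _
      unfold X
      rw [sq, sum_mul_sum]
    rw [sum_congr rfl this, sum_comm, hP, ← nsmul_eq_mul, ← sum_const]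
    apply sum_le_sum
    intro π hπ
    rw [sum_comm]
    exact inner_bound hk hn hπ
  rw [e1, e2, e3] at h
  set T := (2 : ℝ) ^ (n.choose k) with hT
  have hT0 : 0 < T := by positivity
  set Z := (((full n k).powerset.filter
    (fun H => ¬ ∃ v w : Fin n, v ≠ w ∧ deg H v = deg H w)).card : ℝ)
  set a := p2 ((n - 2).choose (k - 1))
  set q := (2 * a + 4 * n * (p1 ((n - 3).choose (k - 1)) * p2 ((n - 3).choose (k - 1))) +
        P * p2 ((n - 4).choose (k - 1)) ^ 2)
  have h5 : Z * (P * (a * T)) ^ 2 ≤ T * (T * (P * (q * T)) - (P * (a * T)) ^ 2) := by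
    refine h.trans ?_
    apply mul_le_mul_of_nonneg_left _ hT0.le
    have := mul_le_mul_of_nonneg_left e4 hT0.le
    linarith
  have h6 : Z * (P * a) ^ 2 * T ^ 2 ≤ T * (P * q - (P * a) ^ 2) * T ^ 2 := by
    calc Z * (P * a) ^ 2 * T ^ 2 = Z * (P * (a * T)) ^ 2 := by ring
      _ ≤ _ := h5
      _ = _ := by ring
  exact le_of_mul_le_mul_right h6 (by positivity)

end Pool.Agent.V11143.Deg
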