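import Pool.Agent.V11143.Deg3

/-!
# Switching two vertices inside a hypergraph
-/

set_option autoImplicit false

namespace Pool.Agent.V11143.Deg

open Finset

variable {n : ℕ}

/-- Edge twist. -/
def tw (u v : Fin n) (K : Finset (Finset (Fin n))) (e : Finset (Fin n)) : Finset (Fin n) :=
  if (e.erase u).erase v ∈ K then e.map (Equiv.swap u v).toEmbedding else e

lemma mem_swap {u v : Fin n} {e : Finset (Fin n)} {x : Fin n} :
    x ∈ e.map (Equiv.swap u v).toEmbedding ↔ Equiv.swap u v x ∈ e := by
  rw [mem_map_equiv, Equiv.symm_swap]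

lemma core_swap {u v : Fin n} {e : Finset (Fin n)} :
    (((e.map (Equiv.swap u v).toEmbedding).erase u).erase v) = (e.erase u).erase v := by
  ext x
  rw [mem_erase, mem_erase, mem_erase, mem_erase, mem_swap]
  constructor
  · rintro ⟨h1, h2, h3⟩
    rw [Equiv.swap_apply_of_ne_of_ne h2 h1] at h3
    exact ⟨h1, h2, h3⟩
  · rintro ⟨h1, h2, h3⟩
    rw [Equiv.swap_apply_of_ne_of_ne h2 h1]
    exact ⟨h1, h2, h3⟩

lemma tw_tw (u v : Fin n) (K : Finset (Finset (Fin n))) (e : Finset (Fin n)) :
    tw u v K (tw u v K e) = e := by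
  by_cases h : (e.erase u).erase v ∈ K
  · have h1 : tw u v K e = e.map (Equiv.swap u v).toEmbedding := by
      unfold tw
      rw [if_pos h]
    rw [h1]
    unfold tw
    rw [core_swap, if_pos h]
    ext x
    rw [mem_swap, mem_swap, Equiv.swap_apply_self]
  · have h1 : tw u v K e = e := by
      unfold tw
      rw [if_neg h]
    rw [h1, h1]

lemma card_tw (u v : Fin n) (K : Finset (Finset (Fin n))) (e : Finset (Fin n)) :
    (tw u v K e).card = e.card := by
  unfold tw
  split_ifs
  · rw [card_map]
  · rfl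

lemma mem_tw {u v : Fin n} {K : Finset (Finset (Fin n))} {e : Finset (Fin n)} {x : Fin n}
    (h1 : x ≠ u) (h2 : x ≠ v) : x ∈ tw u v K e ↔ x ∈ e := by
  unfold tw
  split_ifs
  · rw [mem_swap, Equiv.swap_apply_of_ne_of_ne h1 h2]
  · rfl

lemma tw_injective (u v : Fin n) (K : Finset (Finset (Fin n))) :
    Function.Injective (tw u v K) := by
  intro a b h
  rw [← tw_tw u v K a, h, tw_tw]

/-- Hypergraph twist. -/
def TW (u v : Fin n) (K H : Finset (Finset (Fin n))) : Finset (Finset (Fin n)) :=
  H.image (tw u v K)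

lemma mem_TW {u v : Fin n} {K H : Finset (Finset (Fin n))} {e : Finset (Fin n)} :
    e ∈ TW u v K H ↔ tw u v K e ∈ H := by
  unfold TW
  rw [mem_image]
  constructor
  · rintro ⟨f, h1, rfl⟩
    rwa [tw_tw]
  · intro h
    exact ⟨_, h, tw_tw _ _ _ _⟩

lemma TW_TW (u v : Fin n) (K H : Finset (Finset (Fin n))) : TW u v K (TW u v K H) = H := by
  ext e
  rw [mem_TW, mem_TW, tw_tw]

lemma TW_full {k : ℕ} {u v : Fin n} {K H : Finset (Finset (Fin n))} (hH : H ⊆ full n k) :
    TW u v K H ⊆ full n k := by
  intro e he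
  rw [mem_TW] at he
  have := hH he
  unfold full at this ⊢
  rw [mem_powersetCard] at this ⊢
  refine ⟨subset_univ _, ?_⟩
  rw [← this.2, card_tw]

lemma deg_TW {u v : Fin n} {K H : Finset (Finset (Fin n))} {x : Fin n}
    (h1 : x ≠ u) (h2 : x ≠ v) : deg (TW u v K H) x = deg H x := by
  unfold deg TW
  rw [filter_image, card_image_of_injective _ (tw_injective _ _ _)]
  congr 1
  apply filter_congr
  intro e _
  exact mem_tw h1 h2

/-- The `(k-1)`-sets avoiding `u`, `v`. -/
def lk (n k : ℕ) (u v : Fin n) : Finset (Finset (Fin n)) :=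
  powersetCard (k - 1) (univ \ {u, v})

lemma card_lk {k : ℕ} {u v : Fin n} (huv : u ≠ v) : (lk n k u v).card = (n - 2).choose (k - 1) := by
  unfold lk
  rw [card_powersetCard, card_sdiff_of_subset (subset_univ _), card_pair huv, card_univ,
    Fintype.card_fin]

lemma mem_lk {k : ℕ} {u v : Fin n} {T : Finset (Fin n)} :
    T ∈ lk n k u v ↔ u ∉ T ∧ v ∉ T ∧ T.card = k - 1 := by
  unfold lk
  rw [mem_powersetCard]
  constructor
  · rintro ⟨h1, h2⟩
    refine ⟨fun h => ?_, fun h => ?_, h2⟩
    · have := h1 h
      simp at this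
    · have := h1 h
      simp at this
  · rintro ⟨h1, h2, h3⟩
    refine ⟨fun x hx => ?_, h3⟩
    rw [mem_sdiff, mem_insert, mem_singleton, not_or]
    refine ⟨mem_univ _, ?_, ?_⟩
    · rintro rfl
      exact h1 hx
    · rintro rfl
      exact h2 hx

/-- Sets `T` with `T ∪ u ∈ H`. -/
def side (k : ℕ) (u v : Fin n) (H : Finset (Finset (Fin n))) (x : Fin n) :
    Finset (Finset (Fin n)) := (lk n k u v).filter (fun T => insert x T ∈ H)

lemma deg_eq_left {k : ℕ} (hk : 1 ≤ k) {u v : Fin n} (huv : u ≠ v) {H : Finset (Finset (Fin n))}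
    (hH : H ⊆ full n k) :
    deg H u = (side k u v H u).card + (H.filter (fun e => u ∈ e ∧ v ∈ e)).card := by
  have h1 : (side k u v H u).card = (H.filter (fun e => u ∈ e ∧ v ∉ e)).card := by
    apply card_bij (fun T _ => insert u T)
    · intro T hT
      unfold side at hT
      rw [mem_filter, mem_lk] at hT
      rw [mem_filter]
      refine ⟨hT.2, mem_insert_self _ _, ?_⟩
      rw [mem_insert, not_or]
      exact ⟨huv.symm, hT.1.2.1⟩
    · intro T hT S hS h
      unfold side at hT hS
      rw [mem_filter, mem_lk] at hT hS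
      rw [← erase_insert hT.1.1, h, erase_insert hS.1.1]
    · intro e he
      rw [mem_filter] at he
      refine ⟨e.erase u, ?_, insert_erase he.2.1⟩
      unfold side
      rw [mem_filter, mem_lk, insert_erase he.2.1, card_erase_of_mem he.2.1]
      have := hH he.1
      unfold full at this
      rw [mem_powersetCard] at this
      refine ⟨⟨notMem_erase _ _, ?_, by omega⟩, he.1⟩
      rw [mem_erase, not_and]
      exact fun _ => he.2.2
  rw [h1]
  unfold deg
  rw [← card_union_of_disjoint]
  · congr 1
    ext e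
    simp only [mem_filter, mem_union]
    tauto
  · rw [disjoint_left]
    intro e h1 h2
    rw [mem_filter] at h1 h2
    exact h1.2.2 h2.2.2

lemma lk_comm {k : ℕ} {u v : Fin n} : lk n k u v = lk n k v u := by
  unfold lk
  rw [pair_comm]

lemma deg_eq_right {k : ℕ} (hk : 1 ≤ k) {u v : Fin n} (huv : u ≠ v) {H : Finset (Finset (Fin n))}
    (hH : H ⊆ full n k) :
    deg H v = (side k u v H v).card + (H.filter (fun e => u ∈ e ∧ v ∈ e)).card := by
  rw [deg_eq_left hk huv.symm hH]
  unfold side
  rw [lk_comm]
  congr 2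
  apply filter_congr
  intro e _
  tauto

lemma deg_eq_iff {k : ℕ} (hk : 1 ≤ k) {u v : Fin n} (huv : u ≠ v) {H : Finset (Finset (Fin n))}
    (hH : H ⊆ full n k) :
    deg H u = deg H v ↔ (side k u v H u).card = (side k u v H v).card := by
  rw [deg_eq_left hk huv hH, deg_eq_right hk huv hH]
  omega

lemma tw_insert_left {k : ℕ} {u v : Fin n} (huv : u ≠ v) {K : Finset (Finset (Fin n))}
    {T : Finset (Fin n)} (hT : T ∈ lk n k u v) :
    tw u v K (insert u T) = if T ∈ K then insert v T else insert u T := by
  rw [mem_lk] at hT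
  unfold tw
  have h1 : ((insert u T).erase u).erase v = T := by
    rw [erase_insert hT.1, erase_eq_of_notMem hT.2.1]
  rw [h1]
  split_ifs
  · ext x
    rw [mem_swap, mem_insert, mem_insert]
    by_cases hxu : x = u
    · subst hxu
      rw [Equiv.swap_apply_left]
      simp [hT.1, hT.2.1, huv, huv.symm]
    · by_cases hxv : x = v
      · subst hxv
        rw [Equiv.swap_apply_right]
        simp
      · rw [Equiv.swap_apply_of_ne_of_ne hxu hxv]
        simp [hxu, hxv]
  · rfl

lemma tw_insert_right {k : ℕ} {u v : Fin n} (huv : u ≠ v) {K : Finset (Finset (Fin n))}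
    {T : Finset (Fin n)} (hT : T ∈ lk n k u v) :
    tw u v K (insert v T) = if T ∈ K then insert u T else insert v T := by
  rw [mem_lk] at hT
  unfold tw
  have h1 : ((insert v T).erase u).erase v = T := by
    rw [erase_right_comm, erase_insert hT.2.1, erase_eq_of_notMem hT.1]
  rw [h1]
  split_ifs
  · ext x
    rw [mem_swap, mem_insert, mem_insert]
    by_cases hxu : x = u
    · subst hxu
      rw [Equiv.swap_apply_left]
      simp
    · by_cases hxv : x = v
      · subst hxv
        rw [Equiv.swap_apply_right]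
        simp [hT.1, hT.2.1, huv, huv.symm]
      · rw [Equiv.swap_apply_of_ne_of_ne hxu hxv]
        simp [hxu, hxv]
  · rfl

/-- For a fixed hypergraph, few twists give equal degrees. -/
lemma few_twists {k : ℕ} (hk : 1 ≤ k) {u v : Fin n} (huv : u ≠ v) {H : Finset (Finset (Fin n))}
    (hH : H ⊆ full n k) :
    (((lk n k u v).powerset.filter
      (fun K => deg (TW u v K H) u = deg (TW u v K H) v)).card : ℝ) ≤
      2 ^ ((n - 2).choose (k - 1)) *
        p1 (((lk n k u v).filter (fun T => ¬(insert u T ∈ H ↔ insert v T ∈ H))).card) := by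
  set U := side k u v H u with hU
  set W := side k u v H v with hW
  set J := (lk n k u v).filter (fun T => ¬(insert u T ∈ H ↔ insert v T ∈ H)) with hJ
  have hPQ : (U \ W) ∪ (W \ U) = J := by
    ext T
    rw [hU, hW, hJ]
    unfold side
    simp only [mem_union, mem_sdiff, mem_filter]
    tauto
  have hd : Disjoint (U \ W) (W \ U) := by
    rw [disjoint_left]
    intro T h1 h2
    rw [mem_sdiff] at h1 h2
    exact h1.2 h2.1
  have h1 := fiber_le (lk n k u v) (U \ W) (W \ U) hd
    (fun _ => (((U.card : ℤ) - W.card) / 2)) (fun _ => True)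
  simp only [and_true, filter_true] at h1
  have h2 : ((lk n k u v).powerset.filter
      (fun K => deg (TW u v K H) u = deg (TW u v K H) v)).card ≤
      mid J.card * ((lk n k u v) \ J).powerset.card := by
    rw [hPQ] at h1
    refine le_trans (card_le_card ?_) h1
    intro K hK
    rw [mem_filter, mem_powerset] at hK ⊢
    refine ⟨hK.1, ?_⟩
    have h3 := (deg_eq_iff hk huv (TW_full hH)).mp hK.2
    have e1 : side k u v (TW u v K H) u = (U \ K) ∪ (W ∩ K) := by
      ext T
      rw [hU, hW]
      unfold side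
      simp only [mem_union, mem_sdiff, mem_filter, mem_inter]
      constructor
      · rintro ⟨h4, h5⟩
        rw [mem_TW, tw_insert_left huv h4] at h5
        split_ifs at h5 with h6
        · exact Or.inr ⟨⟨h4, h5⟩, h6⟩
        · exact Or.inl ⟨⟨h4, h5⟩, h6⟩
      · rintro (⟨⟨h4, h5⟩, h6⟩ | ⟨⟨h4, h5⟩, h6⟩)
        · rw [mem_TW, tw_insert_left huv h4, if_neg h6]
          exact ⟨h4, h5⟩
        · rw [mem_TW, tw_insert_left huv h4, if_pos h6]
          exact ⟨h4, h5⟩
    have e2 : side k u v (TW u v K H) v = (W \ K) ∪ (U ∩ K) := by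
      ext T
      rw [hU, hW]
      unfold side
      simp only [mem_union, mem_sdiff, mem_filter, mem_inter]
      constructor
      · rintro ⟨h4, h5⟩
        rw [mem_TW, tw_insert_right huv h4] at h5
        split_ifs at h5 with h6
        · exact Or.inr ⟨⟨h4, h5⟩, h6⟩
        · exact Or.inl ⟨⟨h4, h5⟩, h6⟩
      · rintro (⟨⟨h4, h5⟩, h6⟩ | ⟨⟨h4, h5⟩, h6⟩)
        · rw [mem_TW, tw_insert_right huv h4, if_neg h6]
          exact ⟨h4, h5⟩
        · rw [mem_TW, tw_insert_right huv h4, if_pos h6]
          exact ⟨h4, h5⟩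
    rw [e1, e2, card_union_of_disjoint, card_union_of_disjoint] at h3
    · have c1 := card_sdiff_add_card_inter U K
      have c2 := card_sdiff_add_card_inter W K
      have c3 : (K ∩ (U \ W)).card + (K ∩ U ∩ W).card = (U ∩ K).card := by
        rw [inter_comm U K, ← card_sdiff_add_card_inter (K ∩ U) W]
        congr 2
        ext T
        simp only [mem_inter, mem_sdiff]
        tauto
      have c4 : (K ∩ (W \ U)).card + (K ∩ U ∩ W).card = (W ∩ K).card := by
        rw [inter_comm W K, ← card_sdiff_add_card_inter (K ∩ W) U]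
        congr 2
        · ext T
          simp only [mem_inter, mem_sdiff]
          tauto
        · ext T
          simp only [mem_inter]
          tauto
      omega
    · rw [disjoint_left]
      intro T h4 h5
      rw [mem_sdiff] at h4
      rw [mem_inter] at h5
      exact h4.2 h5.2
    · rw [disjoint_left]
      intro T h4 h5
      rw [mem_sdiff] at h4
      rw [mem_inter] at h5
      exact h4.2 h5.2
  have hJs : J ⊆ lk n k u v := filter_subset _ _
  rw [card_powerset, card_sdiff_of_subset hJs, card_lk huv] at h2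
  have hJc : J.card ≤ (n - 2).choose (k - 1) := by
    rw [← card_lk huv]
    exact card_le_card hJs
  have h3 : (((lk n k u v).powerset.filter
      (fun K => deg (TW u v K H) u = deg (TW u v K H) v)).card : ℝ) ≤
      mid J.card * 2 ^ ((n - 2).choose (k - 1) - J.card) := by
    exact_mod_cast h2
  refine h3.trans (le_of_eq ?_)
  unfold p1
  have : (2 : ℝ) ^ ((n - 2).choose (k - 1)) = 2 ^ ((n - 2).choose (k - 1) - J.card) *
      2 ^ J.card := by
    rw [← pow_add]
    congr 1
    omega
  rw [this]
  field_simp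

/-- The averaging argument. -/
lemma averaging {k : ℕ} {u v : Fin n}
    (A : Finset (Finset (Fin n)) → Prop) [DecidablePred A]
    (hA : ∀ K H, A H → A (TW u v K H)) :
    2 ^ ((lk n k u v).card) *
      ((full n k).powerset.filter (fun H => A H ∧ deg H u = deg H v)).card ≤
      ∑ H ∈ (full n k).powerset.filter A, ((lk n k u v).powerset.filter
      (fun K => deg (TW u v K H) u = deg (TW u v K H) v)).card := by
  simp only [card_filter]
  rw [sum_comm, ← card_powerset, ← smul_eq_mul, ← sum_const]
  apply sum_le_sum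
  intro K _
  rw [← card_filter, ← card_filter]
  apply card_le_card_of_injOn (fun H => TW u v K H)
  · intro H hH
    rw [mem_coe, mem_filter, mem_powerset] at hH
    rw [mem_coe, mem_filter, mem_filter, mem_powerset]
    refine ⟨⟨TW_full hH.1, hA _ _ hH.2.1⟩, ?_⟩
    simp only [TW_TW]
    exact hH.2.2
  · intro H _ H' _ h
    simp only at h
    rw [← TW_TW u v K H, h, TW_TW]

end Pool.Agent.V11143.Deg
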