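import Pool.Agent.V11143.Deg5

/-!
# Tail bound and one step
-/

set_option autoImplicit false

namespace Pool.Agent.V11143.Deg

open Finset

variable {n : ℕ}

/-- sign -/
def sgn (u v : Fin n) (H : Finset (Finset (Fin n))) (T : Finset (Fin n)) : ℝ :=
  if (insert u T ∈ H ↔ insert v T ∈ H) then -1 else 1

lemma sgn_sq (u v : Fin n) (H : Finset (Finset (Fin n))) (T : Finset (Fin n)) :
    sgn u v H T * sgn u v H T = 1 := by
  unfold sgn
  split_ifs <;> norm_num

/-- toggle -/
def tog (a : Finset (Fin n)) (H : Finset (Finset (Fin n))) : Finset (Finset (Fin n)) :=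
  if a ∈ H then H.erase a else insert a H

lemma mem_tog {a b : Finset (Fin n)} {H : Finset (Finset (Fin n))} :
    b ∈ tog a H ↔ (if b = a then a ∉ H else b ∈ H) := by
  unfold tog
  by_cases h2 : b = a
  · subst h2
    by_cases h1 : b ∈ H
    · simp [h1]
    · simp [h1]
  · by_cases h1 : a ∈ H
    · simp [h1, h2]
    · simp [h1, h2]

lemma tog_tog (a : Finset (Fin n)) (H : Finset (Finset (Fin n))) : tog a (tog a H) = H := by
  ext b
  by_cases h1 : b = a
  · subst h1
    simp [mem_tog]
  · simp [mem_tog, h1]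

lemma tog_ne (a : Finset (Fin n)) (H : Finset (Finset (Fin n))) : tog a H ≠ H := by
  intro h
  have := mem_tog (a := a) (b := a) (H := H)
  rw [h] at this
  simp at this

lemma cross {k : ℕ} (hk : 1 ≤ k) {u v : Fin n} (huv : u ≠ v) {S T : Finset (Fin n)}
    (hS : S ∈ lk n k u v) (hT : T ∈ lk n k u v) (hST : S ≠ T) :
    ∑ H ∈ (full n k).powerset, sgn u v H S * sgn u v H T = 0 := by
  rw [mem_lk] at hS hT
  have huT : insert u T ∈ full n k := by
    unfold full
    rw [mem_powersetCard, card_insert_of_notMem hT.1]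
    exact ⟨subset_univ _, by omega⟩
  have e1 : insert u S ≠ insert u T := by
    intro h
    apply hST
    rw [← erase_insert hS.1, h, erase_insert hT.1]
  have e2 : insert v S ≠ insert u T := by
    intro h
    have h1 : v ∈ insert u T := by
      rw [← h]
      exact mem_insert_self _ _
    rw [mem_insert] at h1
    rcases h1 with h1 | h1
    · exact huv h1.symm
    · exact hT.2.1 h1
  have e3 : insert v T ≠ insert u T := by
    intro h
    have h1 : v ∈ insert u T := by
      rw [← h]
      exact mem_insert_self _ _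
    rw [mem_insert] at h1
    rcases h1 with h1 | h1
    · exact huv h1.symm
    · exact hT.2.1 h1
  apply sum_involution (fun H _ => tog (insert u T) H)
  · intro H _
    have h1 : sgn u v (tog (insert u T) H) S = sgn u v H S := by
      simp only [sgn, mem_tog, if_neg e1, if_neg e2]
    have h2 : sgn u v (tog (insert u T) H) T = - sgn u v H T := by
      simp only [sgn, mem_tog, if_neg e3, if_true]
      by_cases h3 : insert u T ∈ H <;> by_cases h4 : insert v T ∈ H <;> simp [h3, h4]
    rw [h1, h2]
    ring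
  · intro H _ _
    exact tog_ne _ _
  · intro H hH
    rw [mem_powerset] at hH ⊢
    intro e he
    rw [mem_tog] at he
    split_ifs at he with h
    · rw [h]
      exact huT
    · exact hH he
  · intro H _
    exact tog_tog _ _

lemma second_moment {k : ℕ} (hk : 1 ≤ k) {u v : Fin n} (huv : u ≠ v) :
    ∑ H ∈ (full n k).powerset, (∑ T ∈ lk n k u v, sgn u v H T) ^ 2 =
      (n - 2).choose (k - 1) * 2 ^ (n.choose k) := by
  have h1 : ∀ H ∈ (full n k).powerset, (∑ T ∈ lk n k u v, sgn u v H T) ^ 2 =
      ∑ S ∈ lk n k u v, ∑ T ∈ lk n k u v, sgn u v H S * sgn u v H T := by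
    intro H _
    rw [sq, sum_mul_sum]
  rw [sum_congr rfl h1, sum_comm]
  have h2 : ∀ S ∈ lk n k u v, ∑ H ∈ (full n k).powerset, ∑ T ∈ lk n k u v,
      sgn u v H S * sgn u v H T = 2 ^ (n.choose k) := by
    intro S hS
    rw [sum_comm, sum_eq_single S]
    · rw [sum_congr rfl (fun H _ => sgn_sq u v H S), sum_const, nsmul_eq_mul, mul_one,
        card_powerset, card_full]
      push_cast
      rfl
    · intro T hT hTS
      exact cross hk huv hS hT hTS.symm
    · intro h
      exact absurd hS h
  rw [sum_congr rfl h2, sum_const, nsmul_eq_mul, card_lk huv]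

/-- The set `J(H)`. -/
def JJ (k : ℕ) (u v : Fin n) (H : Finset (Finset (Fin n))) : Finset (Finset (Fin n)) :=
  (lk n k u v).filter (fun T => ¬(insert u T ∈ H ↔ insert v T ∈ H))

lemma tail {k : ℕ} (hk : 1 ≤ k) {u v : Fin n} (huv : u ≠ v)
    (hM : 1 ≤ (n - 2).choose (k - 1)) :
    (((full n k).powerset.filter
      (fun H => ((JJ k u v H).card : ℝ) < ((n - 2).choose (k - 1) : ℝ) / 4)).card : ℝ) ≤
      4 / ((n - 2).choose (k - 1) : ℝ) * 2 ^ (n.choose k) := by
  set M := (n - 2).choose (k - 1) with hMdef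
  have hMr : (1 : ℝ) ≤ M := by exact_mod_cast hM
  have h1 := second_moment (n := n) hk huv
  rw [← hMdef] at h1
  have h2 : (((full n k).powerset.filter
      (fun H => ((JJ k u v H).card : ℝ) < (M : ℝ) / 4)).card : ℝ) * ((M : ℝ) / 2) ^ 2 ≤
      M * 2 ^ (n.choose k) := by
    rw [← h1, ← nsmul_eq_mul, ← sum_const]
    calc ∑ _H ∈ (full n k).powerset.filter
            (fun H => ((JJ k u v H).card : ℝ) < (M : ℝ) / 4), ((M : ℝ) / 2) ^ 2
        ≤ ∑ H ∈ (full n k).powerset.filter
            (fun H => ((JJ k u v H).card : ℝ) < (M : ℝ) / 4),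
              (∑ T ∈ lk n k u v, sgn u v H T) ^ 2 := by
          apply sum_le_sum
          intro H hH
          rw [mem_filter] at hH
          have h3 : ∑ T ∈ lk n k u v, sgn u v H T = 2 * (JJ k u v H).card - M := by
            have h4 : ∀ T ∈ lk n k u v, sgn u v H T =
                2 * (if ¬(insert u T ∈ H ↔ insert v T ∈ H) then (1 : ℝ) else 0) - 1 := by
              intro T _
              unfold sgn
              by_cases h5 : (insert u T ∈ H ↔ insert v T ∈ H)
              · rw [if_pos h5, if_neg (not_not.mpr h5)]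
                norm_num
              · rw [if_neg h5, if_pos h5]
                norm_num
            rw [sum_congr rfl h4, sum_sub_distrib, ← mul_sum, sum_const, nsmul_eq_mul, mul_one,
              card_lk huv, ← hMdef, ← sum_filter, sum_const, nsmul_eq_mul, mul_one]
            rfl
          rw [h3]
          have h5 := hH.2
          have h6 : (M : ℝ) / 2 ≤ M - 2 * (JJ k u v H).card := by linarith
          have h7 : ((M : ℝ) / 2) ^ 2 ≤ (M - 2 * (JJ k u v H).card) ^ 2 :=
            pow_le_pow_left₀ (by positivity) h6 2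
          calc ((M : ℝ) / 2) ^ 2 ≤ (M - 2 * (JJ k u v H).card) ^ 2 := h7
            _ = _ := by ring
      _ ≤ _ := sum_le_sum_of_subset_of_nonneg (filter_subset _ _) (fun _ _ _ => sq_nonneg _)
  set Z := (((full n k).powerset.filter
      (fun H => ((JJ k u v H).card : ℝ) < (M : ℝ) / 4)).card : ℝ)
  set T := (2 : ℝ) ^ (n.choose k)
  have h3 : (M : ℝ) * (M * Z) ≤ M * (4 * T) := by nlinarith
  have h4 : (M : ℝ) * Z ≤ 4 * T := le_of_mul_le_mul_left h3 (by positivity)
  rw [div_mul_eq_mul_div, le_div_iff₀ (by positivity)]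
  linarith

lemma p1_le_one (m : ℕ) : p1 m ≤ 1 := by
  unfold p1
  rw [div_le_one (by positivity)]
  unfold mid
  exact_mod_cast Nat.choose_le_two_pow m (m / 2)

/-- One pair against an invariant event. -/
lemma one_pair {k : ℕ} (hk : 1 ≤ k) {u v : Fin n} (huv : u ≠ v)
    (hM : 1 ≤ (n - 2).choose (k - 1))
    (A : Finset (Finset (Fin n)) → Prop) [DecidablePred A]
    (hA : ∀ K H, A H → A (TW u v K H)) :
    (((full n k).powerset.filter (fun H => A H ∧ deg H u = deg H v)).card : ℝ) ≤
      2 / Real.sqrt ((n - 2).choose (k - 1) : ℝ) * ((full n k).powerset.filter A).card +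
      4 / ((n - 2).choose (k - 1) : ℝ) * 2 ^ (n.choose k) := by
  have h1 := averaging (k := k) (u := u) (v := v) A hA
  rw [card_lk huv] at h1
  have htail := tail hk huv hM
  set M := (n - 2).choose (k - 1) with hMdef
  have hMr : (1 : ℝ) ≤ M := by exact_mod_cast hM
  have h2 : (2 : ℝ) ^ M * (((full n k).powerset.filter (fun H => A H ∧ deg H u = deg H v)).card : ℝ) ≤
      ∑ H ∈ (full n k).powerset.filter A, (((lk n k u v).powerset.filter
      (fun K => deg (TW u v K H) u = deg (TW u v K H) v)).card : ℝ) := by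
    exact_mod_cast h1
  have hsqrt : 0 < Real.sqrt (M : ℝ) := Real.sqrt_pos.mpr (by positivity)
  have h3 : ∀ H ∈ (full n k).powerset.filter A, (((lk n k u v).powerset.filter
      (fun K => deg (TW u v K H) u = deg (TW u v K H) v)).card : ℝ) ≤
      2 ^ M * (2 / Real.sqrt (M : ℝ) +
        (if ((JJ k u v H).card : ℝ) < (M : ℝ) / 4 then (1 : ℝ) else 0)) := by
    intro H hH
    rw [mem_filter, mem_powerset] at hH
    refine (few_twists hk huv hH.1).trans ?_
    rw [← hMdef]
    apply mul_le_mul_of_nonneg_left _ (by positivity)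
    change p1 (JJ k u v H).card ≤ _
    split_ifs with h4
    · have := p1_le_one (JJ k u v H).card
      have : 0 ≤ 2 / Real.sqrt (M : ℝ) := by positivity
      linarith
    · rw [not_lt] at h4
      have h5 : 0 < ((JJ k u v H).card : ℝ) := by linarith
      have h6 : 1 ≤ (JJ k u v H).card := by
        have : 0 < (JJ k u v H).card := by exact_mod_cast h5
        omega
      refine (p1_le h6).trans ?_
      rw [add_zero, div_le_div_iff₀ (Real.sqrt_pos.mpr h5) hsqrt, one_mul]
      have h7 : Real.sqrt (M : ℝ) ≤ Real.sqrt (4 * (JJ k u v H).card) :=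
        Real.sqrt_le_sqrt (by linarith)
      have h8 : Real.sqrt (4 * ((JJ k u v H).card : ℝ)) = 2 * Real.sqrt ((JJ k u v H).card) := by
        rw [Real.sqrt_mul (by norm_num)]
        congr 1
        rw [show (4 : ℝ) = 2 ^ 2 by norm_num, Real.sqrt_sq (by norm_num)]
      linarith
  have h4 := h2.trans (sum_le_sum h3)
  rw [← mul_sum, sum_add_distrib, sum_const, nsmul_eq_mul, ← sum_filter, sum_const, nsmul_eq_mul,
    mul_one] at h4
  have h5 := le_of_mul_le_mul_left h4 (by positivity)
  refine h5.trans ?_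
  have h6 : ((((full n k).powerset.filter A).filter
      (fun H => ((JJ k u v H).card : ℝ) < (M : ℝ) / 4)).card : ℝ) ≤
      (((full n k).powerset.filter
      (fun H => ((JJ k u v H).card : ℝ) < (M : ℝ) / 4)).card : ℝ) := by
    apply Nat.cast_le.mpr
    apply card_le_card
    exact filter_subset_filter _ (filter_subset _ _)
  have h7 := h6.trans htail
  have h8 : (((full n k).powerset.filter A).card : ℝ) * (2 / Real.sqrt (M : ℝ)) =
    2 / Real.sqrt (M : ℝ) * ((full n k).powerset.filter A).card := by ring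
  rw [h8]
  linarith

/-- All listed pairs have distinct degrees. -/
def good (S : Finset (Fin n × Fin n)) (H : Finset (Finset (Fin n))) : Prop :=
  ∀ ρ ∈ S, deg H ρ.1 ≠ deg H ρ.2

instance (S : Finset (Fin n × Fin n)) (H : Finset (Finset (Fin n))) : Decidable (good S H) := by
  unfold good
  infer_instance

/-- Pairs of `S` that avoid `u`, `v`. -/
def away (S : Finset (Fin n × Fin n)) (u v : Fin n) : Finset (Fin n × Fin n) :=
  S.filter (fun ρ => ρ.1 ≠ u ∧ ρ.1 ≠ v ∧ ρ.2 ≠ u ∧ ρ.2 ≠ v)

lemma good_TW {S : Finset (Fin n × Fin n)} {u v : Fin n} (K H : Finset (Finset (Fin n)))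
    (h : good (away S u v) H) : good (away S u v) (TW u v K H) := by
  intro ρ hρ
  have h1 := h ρ hρ
  unfold away at hρ
  rw [mem_filter] at hρ
  rw [deg_TW hρ.2.1 hρ.2.2.1, deg_TW hρ.2.2.2.1 hρ.2.2.2.2]
  exact h1

/-- The number of good hypergraphs. -/
noncomputable def al (k : ℕ) (S : Finset (Fin n × Fin n)) : ℝ :=
  ((full n k).powerset.filter (good S)).card

lemma away_bound {k : ℕ} (hk : 1 ≤ k) (hn : 4 ≤ n) {S : Finset (Fin n × Fin n)}
    (hS : S ⊆ (univ : Finset (Fin n)).offDiag) (u v : Fin n) :
    al k (away S u v) ≤ al k S + 4 * n * (p2 ((n - 2).choose (k - 1)) * 2 ^ (n.choose k)) := by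
  have h1 : (full n k).powerset.filter (good (away S u v)) ⊆
      (full n k).powerset.filter (good S) ∪
      (S \ away S u v).biUnion (fun ρ => (full n k).powerset.filter
        (fun H => deg H ρ.1 = deg H ρ.2)) := by
    intro H hH
    rw [mem_filter] at hH
    rw [mem_union, mem_filter, mem_biUnion]
    by_cases hg : good S H
    · exact Or.inl ⟨hH.1, hg⟩
    · right
      unfold good at hg
      push Not at hg
      obtain ⟨ρ, h2, h3⟩ := hg
      refine ⟨ρ, ?_, ?_⟩
      · rw [mem_sdiff]
        exact ⟨h2, fun h4 => hH.2 ρ h4 h3⟩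
      · rw [mem_filter]
        exact ⟨hH.1, h3⟩
  have h2 : ∀ ρ ∈ S \ away S u v, (((full n k).powerset.filter
        (fun H => deg H ρ.1 = deg H ρ.2)).card : ℝ) =
        p2 ((n - 2).choose (k - 1)) * 2 ^ (n.choose k) := by
    intro ρ hρ
    rw [mem_sdiff] at hρ
    rw [← eq_prob hk hn (hS hρ.1)]
    unfold ind
    rw [← sum_filter, sum_const, nsmul_eq_mul, mul_one]
  have h3 : ((S \ away S u v).card : ℝ) ≤ 4 * n := by
    have hsub : (S \ away S u v) ⊆
        ((({u} : Finset (Fin n)) ×ˢ (univ : Finset (Fin n))) ∪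
         (({v} : Finset (Fin n)) ×ˢ (univ : Finset (Fin n)))) ∪
        (((univ : Finset (Fin n)) ×ˢ ({u} : Finset (Fin n))) ∪
         ((univ : Finset (Fin n)) ×ˢ ({v} : Finset (Fin n)))) := by
      intro ρ hρ
      unfold away at hρ
      rw [mem_sdiff, mem_filter] at hρ
      simp only [mem_union, mem_product, mem_singleton, mem_univ, and_true, true_and]
      tauto
    have h2 := card_le_card hsub
    have h3 := card_union_le
      ((({u} : Finset (Fin n)) ×ˢ (univ : Finset (Fin n))) ∪
         (({v} : Finset (Fin n)) ×ˢ (univ : Finset (Fin n))))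
      (((univ : Finset (Fin n)) ×ˢ ({u} : Finset (Fin n))) ∪
         ((univ : Finset (Fin n)) ×ˢ ({v} : Finset (Fin n))))
    have h4 := card_union_le (({u} : Finset (Fin n)) ×ˢ (univ : Finset (Fin n)))
      (({v} : Finset (Fin n)) ×ˢ (univ : Finset (Fin n)))
    have h5 := card_union_le ((univ : Finset (Fin n)) ×ˢ ({u} : Finset (Fin n)))
      ((univ : Finset (Fin n)) ×ˢ ({v} : Finset (Fin n)))
    simp only [card_product, card_singleton, card_univ, Fintype.card_fin] at h4 h5
    have h6 : (S \ away S u v).card ≤ 4 * n := by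
      omega
    exact_mod_cast h6
  unfold al
  calc (((full n k).powerset.filter (good (away S u v))).card : ℝ)
      ≤ (((full n k).powerset.filter (good S) ∪
      (S \ away S u v).biUnion (fun ρ => (full n k).powerset.filter
        (fun H => deg H ρ.1 = deg H ρ.2))).card : ℝ) := by
        apply Nat.cast_le.mpr
        exact card_le_card h1
    _ ≤ (((full n k).powerset.filter (good S)).card : ℝ) + (((S \ away S u v).biUnion
        (fun ρ => (full n k).powerset.filter (fun H => deg H ρ.1 = deg H ρ.2))).card : ℝ) := by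
        exact_mod_cast card_union_le _ _
    _ ≤ (((full n k).powerset.filter (good S)).card : ℝ) +
        ∑ ρ ∈ S \ away S u v, (((full n k).powerset.filter
        (fun H => deg H ρ.1 = deg H ρ.2)).card : ℝ) := by
        apply add_le_add le_rfl
        exact_mod_cast card_biUnion_le
    _ = (((full n k).powerset.filter (good S)).card : ℝ) + ((S \ away S u v).card : ℝ) *
        (p2 ((n - 2).choose (k - 1)) * 2 ^ (n.choose k)) := by
        rw [sum_congr rfl h2, sum_const, nsmul_eq_mul]
    _ ≤ _ := by
        apply add_le_add le_rfl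
        apply mul_le_mul_of_nonneg_right h3
        exact mul_nonneg (p2_pos _).le (by positivity)

/-- One step of the process. -/
lemma step {k : ℕ} (hk : 1 ≤ k) (hn : 4 ≤ n) (hM : 1 ≤ (n - 2).choose (k - 1))
    {S : Finset (Fin n × Fin n)}
    (hS : S ⊆ (univ : Finset (Fin n)).offDiag) {π : Fin n × Fin n}
    (hπ : π ∈ (univ : Finset (Fin n)).offDiag) :
    (1 - 2 / Real.sqrt ((n - 2).choose (k - 1) : ℝ)) * al k S -
      (2 / Real.sqrt ((n - 2).choose (k - 1) : ℝ) * (4 * n * p2 ((n - 2).choose (k - 1))) +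
      4 / ((n - 2).choose (k - 1) : ℝ)) * 2 ^ (n.choose k) ≤ al k (insert π S) := by
  have hπ' := hπ
  rw [mem_offDiag] at hπ'
  have h1 := one_pair (n := n) hk hπ'.2.2 hM (good (away S π.1 π.2))
    (fun K H h => good_TW K H h)
  have h2 := away_bound (n := n) hk hn hS π.1 π.2
  have h3 : al k S ≤ al k (insert π S) +
      (((full n k).powerset.filter
        (fun H => good (away S π.1 π.2) H ∧ deg H π.1 = deg H π.2)).card : ℝ) := by
    unfold al
    rw [← Nat.cast_add, Nat.cast_le]
    refine le_trans (card_le_card ?_) (card_union_le _ _)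
    intro H hH
    rw [mem_filter] at hH
    rw [mem_union, mem_filter, mem_filter]
    by_cases h4 : deg H π.1 = deg H π.2
    · right
      refine ⟨hH.1, ?_, h4⟩
      intro ρ hρ
      unfold away at hρ
      rw [mem_filter] at hρ
      exact hH.2 ρ hρ.1
    · left
      refine ⟨hH.1, ?_⟩
      intro ρ hρ
      rw [mem_insert] at hρ
      rcases hρ with rfl | hρ
      · exact h4
      · exact hH.2 ρ hρ
  set x := 2 / Real.sqrt ((n - 2).choose (k - 1) : ℝ) with hx
  have hx0 : 0 ≤ x := by positivity
  change _ ≤ x * al k (away S π.1 π.2) + _ at h1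
  have h5 := mul_le_mul_of_nonneg_left h2 hx0
  have h6 : x * (al k S + 4 * n * (p2 ((n - 2).choose (k - 1)) * 2 ^ (n.choose k))) =
    x * al k S + (x * (4 * n * p2 ((n - 2).choose (k - 1)))) * 2 ^ (n.choose k) := by ring
  rw [h6] at h5
  have h7 : (1 - x) * al k S -
      (x * (4 * n * p2 ((n - 2).choose (k - 1))) +
      4 / ((n - 2).choose (k - 1) : ℝ)) * 2 ^ (n.choose k) = al k S - (x * al k S +
      (x * (4 * n * p2 ((n - 2).choose (k - 1)))) * 2 ^ (n.choose k) +
      4 / ((n - 2).choose (k - 1) : ℝ) * 2 ^ (n.choose k)) := by ring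
  rw [h7]
  linarith

end Pool.Agent.V11143.Deg
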